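import Pool.Agent.Work.MP_659252_gt.SP.ADefs
import Pool.Agent.Work.MP_659252_gt.QR.D.DirF

/-!
# Separation of the supports of the two families.  Size: M-L (adaptation of `QR/D/Sep`, read it first).

PROOF.  Copy the proof of `sep` (QR/D/Sep).  Family 2 plays the role of `b₂` there (same `f₂`, `P`, `uniq`, `feq`), with `M` = maximum of `f₂ (gc y₀.1 y₀.2 s)` over `|sin s| ≥ ρ`.
For family 1 the condition (2) `f (gc y₀.1 y₀.2 s) > c₁` for `|sin s| ≤ ρ` is replaced by `f₁ (gc y₀.1 y₀.2 s) < a₁` for `|sin s| ≤ ρ`, where `b₁ = 0` outside of `[a₁, c₁]`, `m < a₁`: at `sin s = 0` the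
value is `f₁ (± nz P) = f₁ P ≤ m < a₁`.  `Act (dir f₁ w₁ k₁ b₁) (gc y s)` implies `f₁ ∈ [a₁, c₁]` (`dir_act`, with `H.L₁`, base point `Y`), hence `|sin s| > ρ`; the rest is the same.
-/

namespace Pool.Agent.Work.MP_659252_gt.SP

open scoped ContDiff Topology
open Pool.Agent.Work.MP_659252_gt.Z (V Ten val Tan InT)
open Pool.Agent.Work.MP_659252_gt.QR

variable {d : ℕ}

private theorem dotc : Continuous fun p : V d × V d => p.1 ⬝ᵥ p.2 := by
  simp only [dotProduct]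
  fun_prop

private theorem dot_pos {x : V d} (hx : x ≠ 0) : 0 < x ⬝ᵥ x := by
  rcases (dot_self_nonneg x).eq_or_lt with h | h
  · exfalso
    have h1 := norm_sq_le_dot x
    rw [← h] at h1
    have h2 : ‖x‖ = 0 := by nlinarith [norm_nonneg x]
    exact hx (norm_eq_zero.1 h2)
  · exact h

private theorem nz_self {x : V d} (hx : x ≠ 0) : nz x ⬝ᵥ nz x = 1 := by
  have h := dot_pos hx
  have h1 := Real.mul_self_sqrt h.le
  have h2 : √(x ⬝ᵥ x) ≠ 0 := (Real.sqrt_pos.2 h).ne'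
  rw [nz, smul_dotProduct, dotProduct_smul, smul_eq_mul, smul_eq_mul]
  nth_rewrite 3 [← h1]
  field_simp

private theorem nz_cont {x : V d} (hx : x ≠ 0) : ContinuousAt nz x := by
  have h1 : Continuous (fun x : V d => √(x ⬝ᵥ x)) := by
    simp only [dotProduct]
    fun_prop
  exact (h1.continuousAt.inv₀ (Real.sqrt_pos.2 (dot_pos hx)).ne').smul continuousAt_id

private theorem gc_dot {X W : V d} (h : Orth X W) (s : ℝ) : gc X W s ⬝ᵥ gc X W s = 1 := by
  obtain ⟨h1, h2, h3⟩ := h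
  have h4 : W ⬝ᵥ X = 0 := by rw [dotProduct_comm]; exact h3
  simp only [gc, add_dotProduct, dotProduct_add, smul_dotProduct, dotProduct_smul, smul_eq_mul, h1, h2, h3,
    h4]
  nlinarith [Real.sin_sq_add_cos_sq s]

private theorem gc_ne {X W : V d} (h : Orth X W) (s : ℝ) : gc X W s ≠ 0 := ne_zero_of_dot (gc_dot h s)

private theorem gc_cont3 : Continuous fun p : (V d × V d) × ℝ => gc p.1.1 p.1.2 p.2 := by
  simp only [gc]
  fun_prop

/-- the second vector before normalisation -/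
private noncomputable def uu (z : V d × V d) : V d := z.2 - (z.2 ⬝ᵥ nz z.1) • nz z.1

private theorem uu_cont {z : V d × V d} (hz : z.1 ≠ 0) : ContinuousAt uu z := by
  have h1 : ContinuousAt (fun z : V d × V d => nz z.1) z := (nz_cont hz).comp continuousAt_fst
  have h2 : ContinuousAt (fun z : V d × V d => z.2 ⬝ᵥ nz z.1) z :=
    (dotc (d := d)).continuousAt.comp (f := fun z : V d × V d => (z.2, nz z.1)) (continuousAt_snd.prodMk h1)
  exact continuousAt_snd.sub (h2.smul h1)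

private theorem uu_val (P v : V d) (hP : P ≠ 0) : uu (P, v) = NN P v := by
  have h := dot_pos hP
  have h1 := Real.mul_self_sqrt h.le
  have h2 : √(P ⬝ᵥ P) ≠ 0 := (Real.sqrt_pos.2 h).ne'
  simp only [uu, NN, nz, dotProduct_smul, smul_smul, smul_eq_mul]
  congr 2
  nth_rewrite 3 [← h1]
  field_simp

private theorem on_cont {z : V d × V d} (hz : z.1 ≠ 0) (hu : uu z ≠ 0) : ContinuousAt on z :=
  ((nz_cont hz).comp continuousAt_fst).prodMk ((nz_cont hu).comp (uu_cont hz))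

private theorem on_orth {z : V d × V d} (hz : z.1 ≠ 0) (hu : uu z ≠ 0) : Orth (on z).1 (on z).2 := by
  refine ⟨nz_self hz, nz_self hu, ?_⟩
  have h1 := nz_self hz
  show nz z.1 ⬝ᵥ nz (uu z) = 0
  have h2 : nz z.1 ⬝ᵥ uu z = 0 := by
    simp only [uu, dotProduct_sub, dotProduct_smul, h1, smul_eq_mul, mul_one]
    rw [dotProduct_comm z.2]
    ring
  have h3 : nz (uu z) = (√(uu z ⬝ᵥ uu z))⁻¹ • uu z := rfl
  rw [h3, dotProduct_smul, h2, smul_zero]

private theorem red_per (s : ℝ) : ∃ s' ∈ Set.Icc (0 : ℝ) (2 * Real.pi), Real.cos s = Real.cos s' ∧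
    Real.sin s = Real.sin s' := by
  have h : Function.Periodic (fun s => (Real.cos s, Real.sin s)) (2 * Real.pi) := fun s => by
    simp only [Real.cos_add_two_pi, Real.sin_add_two_pi]
  obtain ⟨s', hs', he⟩ := h.exists_mem_Ico₀ Real.two_pi_pos s
  exact ⟨s', ⟨hs'.1, hs'.2.le⟩, congrArg Prod.fst he, congrArg Prod.snd he⟩

private theorem sign_mul {x c y s : ℝ} (h1 : 0 < x * c) (h2 : 0 < y * s) (h3 : 0 < s * c) :
    Real.sign x = Real.sign y := by
  rcases lt_trichotomy c 0 with hc | hc | hc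
  · have hx : x < 0 := neg_of_mul_pos_left h1 hc.le
    have hs : s < 0 := neg_of_mul_pos_left h3 hc.le
    have hy : y < 0 := neg_of_mul_pos_left h2 hs.le
    rw [Real.sign_of_neg hx, Real.sign_of_neg hy]
  · rw [hc, mul_zero] at h1
    exact absurd h1 (lt_irrefl _)
  · have hx : 0 < x := pos_of_mul_pos_left h1 hc.le
    have hs : 0 < s := pos_of_mul_pos_left h3 hc.le
    have hy : 0 < y := pos_of_mul_pos_left h2 hs.le
    rw [Real.sign_of_pos hx, Real.sign_of_pos hy]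

private theorem ev_on {S : Set ℝ} (hS : IsCompact S) (y₀ : V d × V d) (Q : V d × V d → ℝ → Prop)
    (h : ∀ s ∈ S, ∀ᶠ p : (V d × V d) × ℝ in 𝓝 (y₀, s), Q p.1 p.2) :
    ∀ᶠ y in 𝓝 y₀, ∀ s ∈ S, Q y s :=
  hS.eventually_forall_of_forall_eventually (P := Q) h

theorem sep2 (f₁ w₁ : V d → ℝ) (k₁ : Ten d) (lo₁ hi₁ : ℝ) (Y : V d) (f₂ w₂ : V d → ℝ) (k₂ : Ten d) (lo₂ hi₂ : ℝ)
    (P : V d) (H : Two f₁ w₁ k₁ lo₁ hi₁ Y f₂ w₂ k₂ lo₂ hi₂ P) (m : ℝ) (hm : lo₁ ≤ m) (hPm : f₁ P ≤ m) (b₁ : ℝ → ℝ)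
    (h₁ : Bump m hi₁ b₁) (v : V d) (hv0 : v 0 = 0) (hv : v ≠ 0) (hvn : gr f₂ P ⬝ᵥ v = 0) :
    ∃ e > 0, lo₂ < f₂ P - e ∧ f₂ P + e < hi₂ ∧ ∀ b₂, Bump (f₂ P - e) (f₂ P + e) b₂ → ∀ᶠ z in 𝓝 (P, v),
      Orth (on z).1 (on z).2 ∧ on z ∈ Dom (Cs (NN P v) (dir f₁ w₁ k₁ b₁)) ∧
      on z ∈ Dom (Cs (ee 0) (dir f₂ w₂ k₂ b₂)) ∧
      ∀ s σ, 0 < Real.sin (s - σ) → Act (dir f₁ w₁ k₁ b₁) (gc (on z).1 (on z).2 s) →
        Act (dir f₂ w₂ k₂ b₂) (gc (on z).1 (on z).2 σ) →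
        Real.sign (gc (on z).1 (on z).2 σ 0) = Real.sign (gc (on z).1 (on z).2 s ⬝ᵥ NN P v) := by
  obtain ⟨hs₁, a₁, c₁, ha₁, hc₁, hz₁⟩ := h₁
  have L := H.L₂
  have hP0 := L.P0
  have hP : P ≠ 0 := by
    rintro rfl
    simp at hP0
  set N := NN P v with hN
  set γ : ℝ := (v ⬝ᵥ P) / (P ⬝ᵥ P) with hγ
  have hNe : N = v - γ • P := rfl
  have hPP := dot_pos hP
  have hN0 : N ≠ 0 := by
    intro h
    have h1 : v = γ • P := by rw [← sub_eq_zero, ← hNe, h]
    have h2 : γ = 0 := by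
      have h3 := congrFun h1 0
      rw [hv0, Pi.smul_apply, smul_eq_mul] at h3
      rcases mul_eq_zero.1 h3.symm with h4 | h4
      · exact h4
      · exact absurd h4 hP0.ne'
    rw [h2, zero_smul] at h1
    exact hv h1
  have hNN := dot_pos hN0
  have hPN : P ⬝ᵥ N = 0 := by
    rw [hNe, dotProduct_sub, dotProduct_smul, smul_eq_mul, hγ, dotProduct_comm v P]
    field_simp
    ring
  set α : ℝ := (√(P ⬝ᵥ P))⁻¹ with hα
  set β : ℝ := (√(N ⬝ᵥ N))⁻¹ with hβ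
  have hα0 : 0 < α := inv_pos.2 (Real.sqrt_pos.2 hPP)
  have hβ0 : 0 < β := inv_pos.2 (Real.sqrt_pos.2 hNN)
  have huu : uu (P, v) = N := uu_val P v hP
  have hu0 : uu (P, v) ≠ 0 := by rw [huu]; exact hN0
  set y₀ : V d × V d := on (P, v) with hy₀
  have hy1 : y₀.1 = α • P := rfl
  have hy2 : y₀.2 = β • N := by
    have : y₀.2 = nz (uu (P, v)) := rfl
    rw [this, huu]
    rfl
  have hor₀ : Orth y₀.1 y₀.2 := on_orth (z := (P, v)) hP hu0
  have hgc0 : ∀ s, gc y₀.1 y₀.2 s ≠ 0 := gc_ne hor₀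
  -- at the special circle
  have g0 : ∀ s, Real.sin s = 0 → gc y₀.1 y₀.2 s = (Real.cos s * α) • P := by
    intro s hs
    rw [gc, hs, zero_smul, add_zero, hy1, smul_smul]
  have hcos2 : ∀ s, Real.sin s = 0 → Real.cos s ^ 2 = 1 := fun s hs => by
    have := Real.sin_sq_add_cos_sq s
    rw [hs] at this
    linarith
  have a1 : ∀ s, Real.sin s = 0 → f₁ (gc y₀.1 y₀.2 s) ≤ m := by
    intro s hs
    rw [g0 s hs, H.L₁.fh _ _ (mul_ne_zero ?_ hα0.ne')]
    · exact hPm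
    · intro h
      have := hcos2 s hs
      rw [h] at this
      norm_num at this
  have a2 : ∀ s, Real.sin s = 0 → 0 < gc y₀.1 y₀.2 s 0 * Real.cos s := by
    intro s hs
    rw [g0 s hs, Pi.smul_apply, smul_eq_mul]
    have h1 : Real.cos s * α * P 0 * Real.cos s = Real.cos s ^ 2 * (α * P 0) := by ring
    rw [h1, hcos2 s hs, one_mul]
    exact mul_pos hα0 hP0
  have a3 : ∀ s, Real.sin s ≠ 0 → f₂ (gc y₀.1 y₀.2 s) < f₂ P := by
    intro s hs
    set A : ℝ := Real.cos s * α - Real.sin s * β * γ with hA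
    set B : ℝ := Real.sin s * β with hB
    have hB0 : B ≠ 0 := mul_ne_zero hs hβ0.ne'
    have h1 : gc y₀.1 y₀.2 s = A • P + B • v := by
      rw [gc, hy1, hy2, hNe]
      funext i
      simp only [Pi.add_apply, Pi.smul_apply, Pi.sub_apply, smul_eq_mul, hA, hB]
      ring
    by_cases hA0 : A = 0
    · rw [h1, hA0, zero_smul, zero_add, L.fh B v hB0]
      exact (L.feq v hv hv0).trans L.lo_lt
    · have h2 : A • P + B • v = A • (P + (B / A) • v) := by
        rw [smul_add, smul_smul, mul_div_cancel₀ _ hA0]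
      rw [h1, h2, L.fh A _ hA0]
      exact L.uniq v hvn hv0 hv (B / A) (div_ne_zero hB0 hA0)
  have a4 : ∀ s, Real.sin s ≠ 0 → 0 < (gc y₀.1 y₀.2 s ⬝ᵥ N) * Real.sin s := by
    intro s hs
    have h1 : gc y₀.1 y₀.2 s ⬝ᵥ N = Real.sin s * (β * (N ⬝ᵥ N)) := by
      rw [gc, hy1, hy2, add_dotProduct, smul_dotProduct, smul_dotProduct, smul_dotProduct,
        smul_dotProduct, hPN]
      simp only [smul_eq_mul]
      ring
    rw [h1]
    have h2 : Real.sin s * (β * (N ⬝ᵥ N)) * Real.sin s = Real.sin s ^ 2 * (β * (N ⬝ᵥ N)) := by ring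
    rw [h2]
    positivity
  -- continuity
  have cf : ∀ s₀, ContinuousAt (fun p : (V d × V d) × ℝ => f₂ (gc p.1.1 p.1.2 p.2)) (y₀, s₀) := by
    intro s₀
    exact ContinuousAt.comp (f := fun p : (V d × V d) × ℝ => gc p.1.1 p.1.2 p.2) (g := f₂)
      (L.fs.continuousOn.continuousAt (isOpen_compl_singleton.mem_nhds (hgc0 s₀))) gc_cont3.continuousAt
  have cg : ∀ s₀, ContinuousAt (fun p : (V d × V d) × ℝ => f₁ (gc p.1.1 p.1.2 p.2)) (y₀, s₀) := by
    intro s₀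
    exact ContinuousAt.comp (f := fun p : (V d × V d) × ℝ => gc p.1.1 p.1.2 p.2) (g := f₁)
      (H.L₁.fs.continuousOn.continuousAt (isOpen_compl_singleton.mem_nhds (hgc0 s₀))) gc_cont3.continuousAt
  have c0 : Continuous fun p : (V d × V d) × ℝ => gc p.1.1 p.1.2 p.2 0 * Real.cos p.2 :=
    ((continuous_apply 0).comp gc_cont3).mul (Real.continuous_cos.comp continuous_snd)
  have cN : Continuous fun p : (V d × V d) × ℝ => (gc p.1.1 p.1.2 p.2 ⬝ᵥ N) * Real.sin p.2 :=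
    ((dotc (d := d)).comp (gc_cont3.prodMk (continuous_const (y := N)))).mul
      (Real.continuous_sin.comp continuous_snd)
  have cf1 : Continuous fun s => f₂ (gc y₀.1 y₀.2 s) := by
    refine continuous_iff_continuousAt.2 fun s₀ => ?_
    exact (cf s₀).comp (f := fun s : ℝ => (y₀, s)) (by fun_prop)
  have cg1 : Continuous fun s => f₁ (gc y₀.1 y₀.2 s) := by
    refine continuous_iff_continuousAt.2 fun s₀ => ?_
    exact (cg s₀).comp (f := fun s : ℝ => (y₀, s)) (by fun_prop)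
  have c01 : Continuous fun s => gc y₀.1 y₀.2 s 0 * Real.cos s :=
    c0.comp (g := fun p : (V d × V d) × ℝ => gc p.1.1 p.1.2 p.2 0 * Real.cos p.2)
      (f := fun s : ℝ => (y₀, s)) (by fun_prop)
  -- the choice of rho
  obtain ⟨ρ, hρ0, hρ⟩ : ∃ ρ : ℝ, 0 < ρ ∧ ∀ s ∈ Set.Icc (0 : ℝ) (2 * Real.pi), |Real.sin s| ≤ ρ →
      f₁ (gc y₀.1 y₀.2 s) < a₁ ∧ 0 < gc y₀.1 y₀.2 s 0 * Real.cos s := by
    have hK : IsCompact {s : ℝ | s ∈ Set.Icc (0 : ℝ) (2 * Real.pi) ∧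
        (a₁ ≤ f₁ (gc y₀.1 y₀.2 s) ∨ gc y₀.1 y₀.2 s 0 * Real.cos s ≤ 0)} := by
      refine isCompact_Icc.of_isClosed_subset ?_ (fun s hs => hs.1)
      exact isClosed_Icc.inter ((isClosed_le continuous_const cg1).union (isClosed_le c01 continuous_const))
    obtain ⟨ρ₀, hρ₀, h2⟩ := hK.exists_forall_le' (f := fun s => |Real.sin s|) (a := 0)
      (Real.continuous_sin.abs.continuousOn) (by
        intro s hs
        refine abs_pos.2 fun h => ?_
        rcases hs.2 with h3 | h3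
        · have h4 := a1 s h
          linarith
        · exact absurd (a2 s h) (not_lt.2 h3))
    refine ⟨ρ₀ / 2, by positivity, fun s hs h3 => ?_⟩
    by_contra h4
    have h5 : ρ₀ ≤ |Real.sin s| := by
      refine h2 s ⟨hs, ?_⟩
      by_contra h6
      push Not at h6
      exact h4 h6
    linarith
  have hK1 : IsCompact {s : ℝ | s ∈ Set.Icc (0 : ℝ) (2 * Real.pi) ∧ |Real.sin s| ≤ ρ} :=
    isCompact_Icc.of_isClosed_subset (isClosed_Icc.inter (isClosed_le Real.continuous_sin.abs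
      continuous_const)) (fun s hs => hs.1)
  have hK2 : IsCompact {s : ℝ | s ∈ Set.Icc (0 : ℝ) (2 * Real.pi) ∧ ρ ≤ |Real.sin s|} :=
    isCompact_Icc.of_isClosed_subset (isClosed_Icc.inter (isClosed_le continuous_const
      Real.continuous_sin.abs)) (fun s hs => hs.1)
  have hsin : ∀ s : ℝ, ρ ≤ |Real.sin s| → Real.sin s ≠ 0 := by
    intro s h1 h2
    rw [h2, abs_zero] at h1
    linarith
  obtain ⟨η, hη0, hη⟩ := hK2.exists_forall_le' (f := fun s => f₂ P - f₂ (gc y₀.1 y₀.2 s)) (a := 0)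
    ((continuous_const.sub cf1).continuousOn) (fun s hs => sub_pos.2 (a3 s (hsin s hs.2)))
  have hlo := L.lo_lt
  have hhi := L.lt_hi
  set e : ℝ := min η (min (f₂ P - lo₂) (hi₂ - f₂ P)) / 2 with he
  have hmin : 0 < min η (min (f₂ P - lo₂) (hi₂ - f₂ P)) :=
    lt_min hη0 (lt_min (by linarith) (by linarith))
  have he0 : 0 < e := by positivity
  have hm1 : min η (min (f₂ P - lo₂) (hi₂ - f₂ P)) ≤ η := min_le_left _ _
  have hm2 : min η (min (f₂ P - lo₂) (hi₂ - f₂ P)) ≤ f₂ P - lo₂ := (min_le_right _ _).trans (min_le_left _ _)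
  have hm3 : min η (min (f₂ P - lo₂) (hi₂ - f₂ P)) ≤ hi₂ - f₂ P := (min_le_right _ _).trans (min_le_right _ _)
  have heη : e < η := by rw [he]; linarith
  refine ⟨e, he0, by rw [he]; linarith, by rw [he]; linarith, fun b₂ h₂ => ?_⟩
  obtain ⟨hs₂, a₂, c₂, ha₂, hc₂, hz₂⟩ := h₂
  have E1 : ∀ᶠ y in 𝓝 y₀, ∀ s ∈ {s : ℝ | s ∈ Set.Icc (0 : ℝ) (2 * Real.pi) ∧ |Real.sin s| ≤ ρ},
      f₁ (gc y.1 y.2 s) < a₁ ∧ 0 < gc y.1 y.2 s 0 * Real.cos s := by
    refine ev_on hK1 y₀ (fun y s => f₁ (gc y.1 y.2 s) < a₁ ∧ 0 < gc y.1 y.2 s 0 * Real.cos s) fun s hs => ?_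
    have h1 := hρ s hs.1 hs.2
    exact ((cg s).eventually_lt continuousAt_const h1.1).and
      (continuousAt_const.eventually_lt c0.continuousAt h1.2)
  have E2 : ∀ᶠ y in 𝓝 y₀, ∀ s ∈ {s : ℝ | s ∈ Set.Icc (0 : ℝ) (2 * Real.pi) ∧ ρ ≤ |Real.sin s|},
      f₂ (gc y.1 y.2 s) < f₂ P - e ∧ 0 < (gc y.1 y.2 s ⬝ᵥ N) * Real.sin s := by
    refine ev_on hK2 y₀ (fun y s => f₂ (gc y.1 y.2 s) < f₂ P - e ∧ 0 < (gc y.1 y.2 s ⬝ᵥ N) * Real.sin s)
      fun s hs => ?_
    have h1 := hη s hs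
    have h2 : f₂ (gc y₀.1 y₀.2 s) < f₂ P - e := by
      have h1' : η ≤ f₂ P - f₂ (gc y₀.1 y₀.2 s) := h1
      linarith
    exact ((cf s).eventually_lt continuousAt_const h2).and
      (continuousAt_const.eventually_lt cN.continuousAt (a4 s (hsin s hs.2)))
  have hon : Filter.Tendsto on (𝓝 (P, v)) (𝓝 y₀) := on_cont (z := (P, v)) hP hu0
  have F1 := hon.eventually E1
  have F2 := hon.eventually E2
  have F3 : ∀ᶠ z : V d × V d in 𝓝 (P, v), z.1 ≠ 0 :=
    (isOpen_ne.preimage continuous_fst).mem_nhds hP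
  have F4 : ∀ᶠ z : V d × V d in 𝓝 (P, v), uu z ≠ 0 :=
    (uu_cont (z := (P, v)) hP).eventually (isOpen_ne.mem_nhds hu0)
  filter_upwards [F1, F2, F3, F4] with z z1 z2 z3 z4
  have hor := on_orth z3 z4
  have G1 : ∀ s : ℝ, |Real.sin s| ≤ ρ →
      f₁ (gc (on z).1 (on z).2 s) < a₁ ∧ 0 < gc (on z).1 (on z).2 s 0 * Real.cos s := by
    intro s hs
    obtain ⟨s', hs', ec, es⟩ := red_per s
    have e1 : gc (on z).1 (on z).2 s = gc (on z).1 (on z).2 s' := by simp only [gc, ec, es]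
    rw [e1, ec]
    exact z1 s' ⟨hs', by rw [← es]; exact hs⟩
  have G2 : ∀ s : ℝ, ρ ≤ |Real.sin s| →
      f₂ (gc (on z).1 (on z).2 s) < f₂ P - e ∧ 0 < (gc (on z).1 (on z).2 s ⬝ᵥ N) * Real.sin s := by
    intro s hs
    obtain ⟨s', hs', ec, es⟩ := red_per s
    have e1 : gc (on z).1 (on z).2 s = gc (on z).1 (on z).2 s' := by simp only [gc, ec, es]
    rw [e1, es]
    exact z2 s' ⟨hs', by rw [← es]; exact hs⟩
  have A1 : ∀ s : ℝ, Act (dir f₁ w₁ k₁ b₁) (gc (on z).1 (on z).2 s) → ρ < |Real.sin s| := by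
    intro s hs
    by_contra h
    push Not at h
    have h1 := dir_act f₁ w₁ k₁ lo₁ hi₁ Y H.L₁ b₁ a₁ c₁ hs₁ hz₁ _ (gc_ne hor s) hs
    have h2 := (G1 s h).1
    linarith [h1.1]
  have A2 : ∀ s : ℝ, Act (dir f₂ w₂ k₂ b₂) (gc (on z).1 (on z).2 s) → |Real.sin s| < ρ := by
    intro s hs
    by_contra h
    push Not at h
    have h1 := dir_act f₂ w₂ k₂ lo₂ hi₂ P L b₂ a₂ c₂ hs₂ hz₂ _ (gc_ne hor s) hs
    have h2 := (G2 s h).1
    linarith [h1.1]
  refine ⟨hor, fun s => ⟨gc_ne hor s, ?_⟩, fun s => ⟨gc_ne hor s, ?_⟩, fun s σ hsσ h1 h2 => ?_⟩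
  · rcases le_or_gt ρ |Real.sin s| with h | h
    · left
      intro h3
      have := (G2 s h).2
      rw [h3, zero_mul] at this
      exact absurd this (lt_irrefl _)
    · right
      intro h3
      exact absurd (A1 s h3) (not_lt.2 h.le)
  · rcases le_or_gt |Real.sin s| ρ with h | h
    · left
      intro h3
      have := (G1 s h).2
      rw [dot_ee] at h3
      rw [h3, zero_mul] at this
      exact absurd this (lt_irrefl _)
    · right
      intro h3
      exact absurd (A2 s h3) (not_lt.2 h.le)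
  · have b1 := A1 s h1
    have b2 := A2 σ h2
    have b3 := (G2 s b1.le).2
    have b4 := (G1 σ b2.le).2
    refine sign_mul b4 b3 ?_
    rw [Real.sin_sub] at hsσ
    have h3 : Real.sin σ ^ 2 < Real.sin s ^ 2 := sq_lt_sq.2 (b2.trans b1)
    have h4 : (Real.cos s * Real.sin σ) ^ 2 < (Real.sin s * Real.cos σ) ^ 2 := by
      have e1 := Real.sin_sq_add_cos_sq s
      have e2 := Real.sin_sq_add_cos_sq σ
      have e3 : Real.cos s ^ 2 = 1 - Real.sin s ^ 2 := by linarith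
      have e4 : Real.cos σ ^ 2 = 1 - Real.sin σ ^ 2 := by linarith
      rw [mul_pow, mul_pow, e3, e4]
      nlinarith
    by_contra h5
    push Not at h5
    nlinarith

end Pool.Agent.Work.MP_659252_gt.SP
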