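import Pool.Agent.Work.MP_659252_gt.SP.A.LinB2
import Pool.Agent.Work.MP_659252_gt.SP.A.Sep2

/-!
# The bracket of the line integrals of two families is the integral of a tensor.  Size: S-M (adaptation of `QR/D/Brx` and `QR/D/BrD`, read them first).

PROOF.  Copy the proofs of `brx` and `brD` with `sep2` instead of `sep`, `linB2` instead of `linB` (for `b₁`), `linA` for `b₂` (with `H.L₂`).  The fields are `dir f₁ w₁ k₁ b₁` (`Fld`, odd, by `dir_fld`, `dir_odd` with `H.L₁`;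
`b₁` is a `Bump lo₁ hi₁` as `lo₁ ≤ m`) and `dir f₂ w₂ k₂ b₂`; they are in `InT` by `H.L₁.zoll`, `H.L₂.zoll`, and their sum is in `InT` by `H.sum` (in the original by `dir_add`).  `thmA` (QR/A/SO) gives `K`.
-/

namespace Pool.Agent.Work.MP_659252_gt.SP

open scoped ContDiff Topology
open Pool.Agent.Work.MP_659252_gt.Z (V Ten val Tan InT)
open Pool.Agent.Work.MP_659252_gt.QR

variable {d : ℕ}

private theorem nz_ne {x : V d} (h : nz x ⬝ᵥ nz x = 1) : x ≠ 0 := by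
  rintro rfl
  simp [nz] at h

private theorem sqrt_pos' {x : V d} (hx : x ≠ 0) : 0 < √(x ⬝ᵥ x) := by
  apply Real.sqrt_pos.2
  have h1 := norm_sq_le_dot x
  have h2 : 0 < ‖x‖ := norm_pos_iff.2 hx
  have h3 := pow_pos h2 2
  linarith

private theorem smul_nz {x : V d} (hx : x ≠ 0) : √(x ⬝ᵥ x) • nz x = x := by
  rw [nz, smul_smul, mul_inv_cancel₀ (sqrt_pos' hx).ne', one_smul]

private theorem gc_ne {X W : V d} (h : Orth X W) (s : ℝ) : gc X W s ≠ 0 := by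
  obtain ⟨h1, h2, h3⟩ := h
  apply ne_zero_of_dot
  simp only [gc, add_dotProduct, dotProduct_add, smul_dotProduct, dotProduct_smul, smul_eq_mul]
  rw [h1, h2, h3, dotProduct_comm W X, h3]
  have := Real.cos_sq_add_sin_sq s
  linear_combination this

private theorem brx2 (hd : 1 ≤ d) (f₁ w₁ : V d → ℝ) (k₁ : Ten d) (lo₁ hi₁ : ℝ) (Y : V d) (f₂ w₂ : V d → ℝ)
    (k₂ : Ten d) (lo₂ hi₂ : ℝ) (P : V d) (H : Two f₁ w₁ k₁ lo₁ hi₁ Y f₂ w₂ k₂ lo₂ hi₂ P) (m : ℝ) (hm : lo₁ ≤ m)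
    (hPm : f₁ P ≤ m) (b₁ : ℝ → ℝ) (h₁ : Bump m hi₁ b₁) (v : V d) (hv0 : v 0 = 0) (hv : v ≠ 0)
    (hvn : gr f₂ P ⬝ᵥ v = 0) :
    ∃ e > 0, lo₂ < f₂ P - e ∧ f₂ P + e < hi₂ ∧ ∀ b₂, Bump (f₂ P - e) (f₂ P + e) b₂ → ∃ K : Ten d, Fld K ∧
      ∀ᶠ z in 𝓝 (P, v), br (fun z => (1 / 4) * Phi (sg (ee 0) (dir f₂ w₂ k₂ b₂)) z.1 z.2)
        (fun z => (1 / 4) * Phi (sg (NN P v) (dir f₁ w₁ k₁ b₁)) z.1 z.2) z = Phi K z.1 z.2 := by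
  obtain ⟨e, he, hlo, hhi, hsep⟩ := sep2 f₁ w₁ k₁ lo₁ hi₁ Y f₂ w₂ k₂ lo₂ hi₂ P H m hm hPm b₁ h₁ v hv0 hv hvn
  refine ⟨e, he, hlo, hhi, fun b₂ h₂ => ?_⟩
  have hb1 : Bump lo₁ hi₁ b₁ := by
    obtain ⟨h3, a, c, h4, h5, h6⟩ := h₁
    exact ⟨h3, a, c, hm.trans_lt h4, h5, h6⟩
  have hb2 : Bump lo₂ hi₂ b₂ := by
    obtain ⟨h3, a, c, h4, h5, h6⟩ := h₂
    exact ⟨h3, a, c, hlo.trans h4, h5.trans hhi, h6⟩
  have hh := dir_fld f₁ w₁ k₁ lo₁ hi₁ Y H.L₁ b₁ hb1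
  have hk := dir_fld f₂ w₂ k₂ lo₂ hi₂ P H.L₂ b₂ hb2
  have oh := dir_odd f₁ w₁ k₁ lo₁ hi₁ Y H.L₁ b₁ hb1
  have ok := dir_odd f₂ w₂ k₂ lo₂ hi₂ P H.L₂ b₂ hb2
  have hT := H.L₁.zoll b₁ hb1
  have kT := H.L₂.zoll b₂ hb2
  have hkT := H.sum b₁ b₂ hb1 hb2
  obtain ⟨K, hK, hKeq⟩ := thmA hd (dir f₁ w₁ k₁ b₁) (dir f₂ w₂ k₂ b₂) hh hk oh ok hT kT hkT
  refine ⟨K, hK, ?_⟩
  filter_upwards [hsep b₂ h₂] with z hz
  obtain ⟨hO, dh, dk, Sep⟩ := hz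
  set N := NN P v with hN
  set A := dir f₁ w₁ k₁ b₁ with hA
  set B := dir f₂ w₂ k₂ b₂ with hB
  -- the decomposition of `z`
  have hz1 : z.1 ≠ 0 := nz_ne hO.1
  set u : V d := z.2 - (z.2 ⬝ᵥ nz z.1) • nz z.1 with hu
  have hu0 : u ≠ 0 := nz_ne hO.2.1
  set l := √(z.1 ⬝ᵥ z.1) with hl
  set q := √(u ⬝ᵥ u) with hq
  set n := z.2 ⬝ᵥ nz z.1 with hn
  have hl0 : 0 < l := sqrt_pos' hz1
  have hm0 : 0 < q := sqrt_pos' hu0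
  have ez1 : l • (on z).1 = z.1 := smul_nz hz1
  have ez2 : q • (on z).2 + n • (on z).1 = z.2 := by
    have h3 : q • (on z).2 = u := smul_nz hu0
    have h4 : n • (on z).1 = (z.2 ⬝ᵥ nz z.1) • nz z.1 := rfl
    rw [h3, h4, hu]
    abel
  -- the invariant open set
  have hDA : IsOpen (Cs N A) := Cs_open N A
  have hDB : IsOpen (Cs (ee 0) B) := Cs_open (ee 0) B
  have fA := sg_fld N A hh
  have fB := sg_fld (ee 0) B hk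
  have sA := Phi_smooth (sg N A) (Cs N A) hDA fA
  have sB := Phi_smooth (sg (ee 0) B) (Cs (ee 0) B) hDB fB
  have key := br_equi (Dom (Cs N A) ∩ Dom (Cs (ee 0) B))
    ((Dom_open _ hDA).inter (Dom_open _ hDB))
    (fun z => (1 / 4) * Phi (sg (ee 0) B) z.1 z.2) (fun z => (1 / 4) * Phi (sg N A) z.1 z.2)
    (((sB.differentiableOn (by simp)).mono Set.inter_subset_right).const_mul _)
    (((sA.differentiableOn (by simp)).mono Set.inter_subset_left).const_mul _)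
    l q n hl0 hm0
    (fun y hy => ⟨Dom_equi _ (fun c x hc hx => Cs_cone N A hh c x hc hx) y.1 y.2 hy.1 l q n hl0 hm0,
      Dom_equi _ (fun c x hc hx => Cs_cone (ee 0) B hk c x hc hx) y.1 y.2 hy.2 l q n hl0 hm0⟩)
    (fun y hy => by
      show (1 / 4) * Phi (sg (ee 0) B) (l • y.1) (q • y.2 + n • y.1) =
        l * q * ((1 / 4) * Phi (sg (ee 0) B) y.1 y.2)
      rw [Phi_equi (sg (ee 0) B) (Cs (ee 0) B) hDB (fun c x hc hx => Cs_cone (ee 0) B hk c x hc hx) fB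
        y.1 y.2 hy.2 l q n hl0 hm0]
      ring)
    (fun y hy => by
      show (1 / 4) * Phi (sg N A) (l • y.1) (q • y.2 + n • y.1) =
        l * q * ((1 / 4) * Phi (sg N A) y.1 y.2)
      rw [Phi_equi (sg N A) (Cs N A) hDA (fun c x hc hx => Cs_cone N A hh c x hc hx) fA
        y.1 y.2 hy.1 l q n hl0 hm0]
      ring)
    (on z) ⟨dh, dk⟩
  rw [ez1, ez2] at key
  have h5 := brg A B hh hk oh ok N K hKeq (on z).1 (on z).2 hO dh dk Sep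
  have h6 := Phi_equi K {0}ᶜ isOpen_compl_singleton
    (fun c x hc hx => smul_ne_zero hc.ne' hx) hK (on z).1 (on z).2 (fun s => gc_ne hO s) l q n hl0 hm0
  rw [ez1, ez2] at h6
  rw [h6, ← h5]
  exact key

theorem brD2 (hd : 1 ≤ d) (f₁ w₁ : V d → ℝ) (k₁ : Ten d) (lo₁ hi₁ : ℝ) (Y : V d) (f₂ w₂ : V d → ℝ) (k₂ : Ten d)
    (lo₂ hi₂ : ℝ) (P : V d) (H : Two f₁ w₁ k₁ lo₁ hi₁ Y f₂ w₂ k₂ lo₂ hi₂ P) (m : ℝ) (hm : lo₁ ≤ m) (hPm : f₁ P ≤ m)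
    (b₁ : ℝ → ℝ) (h₁ : Bump m hi₁ b₁) (v : V d) (hv0 : v 0 = 0) (hv : v ≠ 0) (hvn : gr f₂ P ⬝ᵥ v = 0) :
    ∃ e > 0, lo₂ < f₂ P - e ∧ f₂ P + e < hi₂ ∧ ∀ b₂, Bump (f₂ P - e) (f₂ P + e) b₂ → ∃ K : Ten d, Fld K ∧
      ∀ᶠ z in 𝓝 (P, v), br (Fz f₂ (Kq f₂ w₂ k₂) b₂) (Ps f₁ (Kq f₁ w₁ k₁) b₁) z = Phi K z.1 z.2 := by
  obtain ⟨e, he, h1, h2, HH⟩ := brx2 hd f₁ w₁ k₁ lo₁ hi₁ Y f₂ w₂ k₂ lo₂ hi₂ P H m hm hPm b₁ h₁ v hv0 hv hvn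
  refine ⟨e, he, h1, h2, fun b₂ hb₂ => ?_⟩
  obtain ⟨K, hK, hev⟩ := HH b₂ hb₂
  refine ⟨K, hK, ?_⟩
  have hb₂' : Bump lo₂ hi₂ b₂ := by
    obtain ⟨hs, a, c, ha, hc, hac⟩ := hb₂
    exact ⟨hs, a, c, h1.trans ha, hc.trans h2, hac⟩
  have eA := linA f₂ w₂ k₂ lo₂ hi₂ P H.L₂ b₂ hb₂' v hv0 hv
  have eB := linB2 f₁ w₁ k₁ lo₁ hi₁ Y H.L₁ m hm b₁ h₁ P H.L₂.P0 hPm v hv0 hv
  filter_upwards [hev, eventually_eventually_nhds.2 eA, eventually_eventually_nhds.2 eB] with z hz h3 h4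
  have f3 : fderiv ℝ (fun z : V d × V d => (1 / 4) * Phi (sg (ee 0) (dir f₂ w₂ k₂ b₂)) z.1 z.2) z =
      fderiv ℝ (Fz f₂ (Kq f₂ w₂ k₂) b₂) z := Filter.EventuallyEq.fderiv_eq h3
  have f4 : fderiv ℝ (fun z : V d × V d => (1 / 4) * Phi (sg (NN P v) (dir f₁ w₁ k₁ b₁)) z.1 z.2) z =
      fderiv ℝ (Ps f₁ (Kq f₁ w₁ k₁) b₁) z := Filter.EventuallyEq.fderiv_eq h4
  unfold br at hz ⊢
  rw [← f3, ← f4]
  exact hz

end Pool.Agent.Work.MP_659252_gt.SP
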