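import Pool.Agent.Work.MP_659252_gt.SP.A.DPs2
import Pool.Agent.Work.MP_659252_gt.SP.A.Chi1
import Pool.Agent.Work.MP_659252_gt.QR.L.Far
import Pool.Agent.Work.MP_659252_gt.QR.J.Scale

/-!
# Concentration at a point of tangency.  Size: M-L.

PROOF.  `v = Y - P`, `0 < P 0`, `v ≠ 0`, `v 0 = 0`, `gr f Y ⬝ v = 0` (`gr f Y ⬝ Y = 0`: `gr_rad`).  Suppose that `fderiv (Ps b) (P, v) (0, n) = 0` for all `b` with `Bump m hi b`.  Let `χ` be as in `exists_chi1`, `M = f Y`,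
and for `δ > 0` `b_δ y = χ ((M - y)/δ²)`, supported in `[M - 2 δ², M - δ²]`: a `Bump m hi` for small `δ` (`m < M < hi`).  `deriv b_δ y = -δ⁻² χ' ((M - y)/δ²)`.  By `DPs2`, times `-2 δ`:
`0 = δ⁻¹ ∫ sign τ χ' ((M - f (P + τ v))/δ²) C₁ τ dτ - δ² · δ⁻¹ ∫ sign τ χ ((M - f (P + τ v))/δ²) Eg τ dτ`, `C₁ τ = τ * fderiv f (P + τ v) n * Kq f w k (P + τ v) v`.
Substitute `τ = 1 + σ` (`integral_add_left_eq_self`): `P + τ v = Y + σ v`, `g σ = f (Y + σ v)` is smooth on `ℝ`, `g 0 = M`, `g' 0 = 0`, `iteratedDeriv 2 g 0 = D2 f Y v = -κ < 0` (`L.curv`), `g σ < M` for `σ ≠ 0` (`L.uniq`).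
For `|σ| ≥ 1/2`: `g σ ≤ M - e` with some `e > 0` (compactness on `1/2 ≤ |σ| ≤ R` and `g σ < lo < M` for `|σ| ≥ R`, see `QR/L/Far`), so for `2 δ² < e` the integrands vanish there, and for `|σ| < 1/2` `sign (1 + σ) = 1`:
both integrals are over `[-1/2, 1/2]`, without the sign.  By `scale` (QR/J/Scale, with `R = 1/2`, and the continuous functions `χ'`, `χ`, zero outside of `[1, 2]`) the first term tends to `C₁ 1 * ∫ χ' (κ u²/2) du`,
`C₁ 1 = fderiv f Y n * Kq f w k Y v`, and `δ⁻¹ ∫ ...` in the second term has a finite limit, so the second term tends to `0`.  Hence `(gr f Y ⬝ n) * Kq f w k Y v * ∫ χ' (κ u²/2) = 0`: contradiction to `hn`, `hK`,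
`exists_chi1`.  (`Eg` is continuous in `τ`: `Kq` is smooth, `Kq_smooth`; `P + τ v` has coordinate `0` equal to `P 0 > 0`.  `fderiv f Y n = gr f Y ⬝ n`: `fderiv_eq_gr`.)
-/

namespace Pool.Agent.Work.MP_659252_gt.SP

open scoped ContDiff Topology
open Pool.Agent.Work.MP_659252_gt.Z (V Ten val Tan InT)
open Pool.Agent.Work.MP_659252_gt.QR

variable {d : ℕ}

private theorem co_op : IsOpen ({0}ᶜ : Set (V d)) := isOpen_compl_singleton

private theorem co_ne {P v : V d} (hP : 0 < P 0) (hv : v 0 = 0) (τ : ℝ) : P + τ • v ≠ 0 := by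
  intro h
  have h1 := congrFun h 0
  simp only [Pi.add_apply, Pi.smul_apply, hv, smul_zero, add_zero, Pi.zero_apply] at h1
  exact hP.ne' h1

private theorem co_line (P v : V d) : ContDiff ℝ ∞ (fun τ : ℝ => P + τ • v) :=
  contDiff_const.add (contDiff_id.smul contDiff_const)

private theorem co_deriv0 {χ : ℝ → ℝ} (h : ∀ s, s ∉ Set.Icc (1 : ℝ) 2 → χ s = 0) :
    ∀ s, s ∉ Set.Icc (1 : ℝ) 2 → deriv χ s = 0 := by
  intro s hs
  have h1 : χ =ᶠ[𝓝 s] fun _ => 0 := by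
    filter_upwards [isClosed_Icc.isOpen_compl.mem_nhds hs] with x hx
    exact h x hx
  rw [h1.deriv_eq, deriv_const]

private theorem co_A {f w : V d → ℝ} {k : Ten d} {lo hi : ℝ} {Y : V d} (L : Loc f w k lo hi Y)
    {P v : V d} (hP : 0 < P 0) (hv : v 0 = 0) (n : V d) :
    Continuous fun τ : ℝ => τ * fderiv ℝ f (P + τ • v) n * Kq f w k (P + τ • v) v := by
  have h1 : ContDiffOn ℝ ∞ (fun y => fderiv ℝ f y n) ({0}ᶜ : Set (V d)) :=
    (L.fs.fderiv_of_isOpen co_op (by simp)).clm_apply contDiffOn_const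
  have h2 : Continuous fun τ : ℝ => fderiv ℝ f (P + τ • v) n :=
    (h1.comp_contDiff (co_line P v) fun τ => co_ne hP hv τ).continuous
  have h3 : ContDiff ℝ ∞ fun τ : ℝ => ((P + τ • v, v) : V d × V d) :=
    (co_line P v).prodMk contDiff_const
  have h4 : Continuous fun τ : ℝ => Kq f w k (P + τ • v) v :=
    ((Kq_smooth f w k L.fs L.ws L.ks.smooth).comp_contDiff h3
      fun τ => ⟨co_ne hP hv τ, trivial⟩).continuous
  exact (continuous_id.mul h2).mul h4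

private theorem co_E {f w : V d → ℝ} {k : Ten d} {lo hi : ℝ} {Y : V d} (L : Loc f w k lo hi Y)
    {P v : V d} (hP : 0 < P 0) (hv : v 0 = 0) (n : V d) :
    Continuous fun τ : ℝ => Eg f w k P v n τ := by
  set O : Set (ℝ × ℝ) := (fun p : ℝ × ℝ => P + p.2 • (v + p.1 • n)) ⁻¹' {0}ᶜ with hO
  have hcl : ContDiff ℝ ∞ fun p : ℝ × ℝ => P + p.2 • (v + p.1 • n) := by fun_prop
  have hOo : IsOpen O := co_op.preimage hcl.continuous
  have h0 : ∀ τ : ℝ, ((0, τ) : ℝ × ℝ) ∈ O := by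
    intro τ
    show P + τ • (v + (0 : ℝ) • n) ≠ 0
    rw [zero_smul, add_zero]
    exact co_ne hP hv τ
  have hH : ContDiffOn ℝ ∞ (fun p : ℝ × ℝ => Kq f w k (P + p.2 • (v + p.1 • n)) (v + p.1 • n)) O := by
    refine (Kq_smooth f w k L.fs L.ws L.ks.smooth).comp (t := {0}ᶜ ×ˢ Set.univ)
      (f := fun p : ℝ × ℝ => ((P + p.2 • (v + p.1 • n), v + p.1 • n) : V d × V d)) ?_ ?_
    · exact (hcl.prodMk (by fun_prop)).contDiffOn
    · exact fun p hp => ⟨hp, trivial⟩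
  have hfd : ContinuousOn (fun p : ℝ × ℝ => fderiv ℝ
      (fun p : ℝ × ℝ => Kq f w k (P + p.2 • (v + p.1 • n)) (v + p.1 • n)) p (1, 0)) O :=
    ((hH.fderiv_of_isOpen hOo (m := ∞) (by simp)).clm_apply contDiffOn_const).continuousOn
  have he : (fun τ : ℝ => Eg f w k P v n τ) = fun τ : ℝ => fderiv ℝ
      (fun p : ℝ × ℝ => Kq f w k (P + p.2 • (v + p.1 • n)) (v + p.1 • n)) (0, τ) (1, 0) := by
    funext τ
    have h1 : HasFDerivAt (fun p : ℝ × ℝ => Kq f w k (P + p.2 • (v + p.1 • n)) (v + p.1 • n))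
        (fderiv ℝ (fun p : ℝ × ℝ => Kq f w k (P + p.2 • (v + p.1 • n)) (v + p.1 • n)) (0, τ))
        (0, τ) :=
      ((hH.contDiffAt (hOo.mem_nhds (h0 τ))).differentiableAt (by simp)).hasFDerivAt
    have h2 : HasDerivAt (fun η : ℝ => ((η, τ) : ℝ × ℝ)) (1, 0) 0 :=
      (hasDerivAt_id 0).prodMk (hasDerivAt_const 0 τ)
    exact (HasFDerivAt.comp_hasDerivAt (f := fun η : ℝ => ((η, τ) : ℝ × ℝ)) (0 : ℝ) h1 h2).deriv
  rw [he, continuous_iff_continuousAt]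
  intro τ
  have h5 := hfd.continuousAt (hOo.mem_nhds (h0 τ))
  exact h5.comp (f := fun t : ℝ => ((0, t) : ℝ × ℝ)) (by fun_prop)

/-- the value away from the point of tangency -/
private theorem co_gap {f w : V d → ℝ} {k : Ten d} {lo hi : ℝ} {Y : V d} (L : Loc f w k lo hi Y)
    {v : V d} (gv : gr f Y ⬝ᵥ v = 0) (v0 : v 0 = 0) (vne : v ≠ 0) :
    ∃ e : ℝ, 0 < e ∧ ∀ σ : ℝ, 1 / 2 ≤ |σ| → f (Y + σ • v) ≤ f Y - e := by
  obtain ⟨R, hR, hfar⟩ := far f w k lo hi Y L v ⟨v0, by rw [fderiv_eq_gr, gv]⟩ vne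
  have hg : Continuous fun σ : ℝ => f (Y + σ • v) :=
    (L.fs.comp_contDiff (co_line Y v) fun τ => co_ne L.P0 v0 τ).continuous
  have hKc : IsCompact ({σ : ℝ | 1 / 2 ≤ |σ|} ∩ Set.Icc (-(R + 1)) (R + 1)) := by
    refine isCompact_Icc.inter_left ?_
    exact isClosed_le continuous_const continuous_abs
  have hne : ({σ : ℝ | 1 / 2 ≤ |σ|} ∩ Set.Icc (-(R + 1)) (R + 1)).Nonempty := by
    refine ⟨1, ?_, by constructor <;> linarith⟩
    show 1 / 2 ≤ |(1 : ℝ)|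
    rw [abs_one]
    norm_num
  obtain ⟨σ0, hσ0, hmax⟩ := hKc.exists_isMaxOn hne hg.continuousOn
  have hσne : σ0 ≠ 0 := by
    rintro rfl
    have h1 : (1 : ℝ) / 2 ≤ |(0 : ℝ)| := hσ0.1
    rw [abs_zero] at h1
    norm_num at h1
  have h1 := L.uniq v gv v0 vne σ0 hσne
  have h2 := L.lo_lt
  refine ⟨min (f Y - f (Y + σ0 • v)) (f Y - lo), lt_min (by linarith) (by linarith), fun σ hσ => ?_⟩
  rcases le_or_gt (|σ|) (R + 1) with h3 | h3
  · have h4 : f (Y + σ • v) ≤ f (Y + σ0 • v) := hmax ⟨hσ, (abs_le.1 h3).1, (abs_le.1 h3).2⟩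
    have h5 := min_le_left (f Y - f (Y + σ0 • v)) (f Y - lo)
    linarith
  · have h4 := hfar σ (by linarith)
    have h5 := min_le_right (f Y - f (Y + σ0 • v)) (f Y - lo)
    linarith

theorem conc (f w : V d → ℝ) (k : Ten d) (lo hi : ℝ) (Y : V d) (L : Loc f w k lo hi Y) (P : V d) (hPY : P 0 = Y 0)
    (hgr : gr f Y ⬝ᵥ P = 0) (hne : P ≠ Y) (m : ℝ) (hm : lo ≤ m) (hmY : m < f Y) (hPm : f P ≤ m) (n : V d)
    (hn : gr f Y ⬝ᵥ n ≠ 0) (hK : Kq f w k Y (Y - P) ≠ 0) :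
    ∃ b, Bump m hi b ∧ fderiv ℝ (Ps f (Kq f w k) b) (P, Y - P) (0, n) ≠ 0 := by
  by_contra hcon
  push Not at hcon
  obtain ⟨χ, hχs, hχ0, hχ1⟩ := exists_chi1
  obtain ⟨v, hv⟩ : ∃ v : V d, v = Y - P := ⟨_, rfl⟩
  rw [← hv] at hcon hK
  have hY : P + v = Y := by
    rw [hv]
    abel
  have v0 : v 0 = 0 := by
    rw [hv, Pi.sub_apply, hPY, sub_self]
  have vne : v ≠ 0 := by
    rw [hv]
    exact sub_ne_zero.2 hne.symm
  have P0 : 0 < P 0 := by
    rw [hPY]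
    exact L.P0
  have Yne : Y ≠ 0 := by
    intro h
    have h1 := L.P0
    rw [h, Pi.zero_apply] at h1
    exact lt_irrefl _ h1
  have gv : gr f Y ⬝ᵥ v = 0 := by
    rw [hv, dotProduct_sub, gr_rad f L.fs L.fh Y Yne, hgr, sub_zero]
  obtain ⟨κ, hκ⟩ : ∃ κ : ℝ, κ = -D2 f Y v := ⟨_, rfl⟩
  have hκ0 : 0 < κ := by
    rw [hκ]
    linarith [L.curv v gv v0 vne]
  obtain ⟨e, he0, he⟩ := co_gap L gv v0 vne
  -- the function along the line
  have hpt : ∀ σ : ℝ, P + (1 + σ) • v = Y + σ • v := by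
    intro σ
    rw [add_smul, one_smul, ← add_assoc, hY]
  have hgs : ContDiff ℝ ∞ fun σ : ℝ => f (Y + σ • v) :=
    L.fs.comp_contDiff (co_line Y v) fun τ => co_ne L.P0 v0 τ
  have hg0 : f (Y + (0 : ℝ) • v) = f Y := by rw [zero_smul, add_zero]
  have hg1 : deriv (fun σ : ℝ => f (Y + σ • v)) 0 = 0 := by
    have h1 : HasDerivAt (fun σ : ℝ => Y + σ • v) v 0 := by
      have h2 := ((hasDerivAt_id (0 : ℝ)).smul_const v).const_add Y
      simpa using h2
    have h2 : HasFDerivAt f (fderiv ℝ f (Y + (0 : ℝ) • v)) (Y + (0 : ℝ) • v) :=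
      ((L.fs.contDiffAt (co_op.mem_nhds (co_ne L.P0 v0 0))).differentiableAt (by simp)).hasFDerivAt
    have h3 := HasFDerivAt.comp_hasDerivAt (f := fun σ : ℝ => Y + σ • v) (0 : ℝ) h2 h1
    rw [zero_smul, add_zero, fderiv_eq_gr, gv] at h3
    exact h3.deriv
  have hg2 : iteratedDeriv 2 (fun σ : ℝ => f (Y + σ • v)) 0 = -κ := by
    rw [hκ, neg_neg]
    rfl
  have hlt : ∀ τ : ℝ, τ ≠ 0 → f (Y + τ • v) < f Y := L.uniq v gv v0 vne
  have hA := co_A L P0 v0 n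
  have hE := co_E L P0 v0 n
  have hA1 : Continuous fun σ : ℝ => (1 + σ) * fderiv ℝ f (P + (1 + σ) • v) n *
      Kq f w k (P + (1 + σ) • v) v := hA.comp (continuous_const.add continuous_id)
  have hE1 : Continuous fun σ : ℝ => Eg f w k P v n (1 + σ) :=
    hE.comp (continuous_const.add continuous_id)
  have hχc : Continuous χ := hχs.continuous
  have hχd : Continuous (deriv χ) := (hχs.continuous_deriv (by simp))
  -- the two limits
  have lim1 := scale (fun σ : ℝ => f (Y + σ • v)) (fun σ : ℝ => (1 + σ) *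
    fderiv ℝ f (P + (1 + σ) • v) n * Kq f w k (P + (1 + σ) • v) v) (deriv χ) (1 / 2) (f Y) κ
    (by norm_num) hκ0 hgs hg0 hg1 hg2 hlt hA1.continuousOn hχd (co_deriv0 hχ0)
  have lim2 := scale (fun σ : ℝ => f (Y + σ • v)) (fun σ : ℝ => Eg f w k P v n (1 + σ)) χ
    (1 / 2) (f Y) κ (by norm_num) hκ0 hgs hg0 hg1 hg2 hlt hE1.continuousOn hχc hχ0
  -- the identity
  have key : ∀ᶠ δ : ℝ in 𝓝[>] 0,
      δ⁻¹ * (∫ σ in (-(1 / 2 : ℝ))..(1 / 2), deriv χ ((f Y - f (Y + σ • v)) / δ ^ 2) *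
        ((1 + σ) * fderiv ℝ f (P + (1 + σ) • v) n * Kq f w k (P + (1 + σ) • v) v)) =
      δ ^ 2 * (δ⁻¹ * ∫ σ in (-(1 / 2 : ℝ))..(1 / 2), χ ((f Y - f (Y + σ • v)) / δ ^ 2) *
        Eg f w k P v n (1 + σ)) := by
    have hsmall : ∀ᶠ δ : ℝ in 𝓝[>] 0, 2 * δ ^ 2 < min e (f Y - m) := by
      have h1 : Filter.Tendsto (fun δ : ℝ => 2 * δ ^ 2) (𝓝[>] 0) (𝓝 (2 * 0 ^ 2)) := by
        have h2 : Continuous fun δ : ℝ => 2 * δ ^ 2 := by fun_prop
        exact (h2.tendsto 0).mono_left nhdsWithin_le_nhds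
      refine h1.eventually_lt_const ?_
      rw [zero_pow two_ne_zero, mul_zero]
      exact lt_min he0 (by linarith)
    filter_upwards [hsmall, self_mem_nhdsWithin] with δ hδ1 hδ2
    have hδ0 : 0 < δ := hδ2
    have hδ3 : 2 * δ ^ 2 < e := lt_of_lt_of_le hδ1 (min_le_left _ _)
    have hδ4 : 2 * δ ^ 2 < f Y - m := lt_of_lt_of_le hδ1 (min_le_right _ _)
    have hδsq : 0 < δ ^ 2 := by positivity
    -- the profile
    have hb : Bump m hi (fun y => χ ((f Y - y) / δ ^ 2)) := by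
      refine ⟨hχs.comp (by fun_prop), f Y - 2 * δ ^ 2, f Y - δ ^ 2, by linarith, ?_, ?_⟩
      · have := L.lt_hi
        linarith
      · intro s hs
        apply hχ0
        intro hmem
        apply hs
        obtain ⟨h1, h2⟩ := hmem
        rw [le_div_iff₀ hδsq] at h1
        rw [div_le_iff₀ hδsq] at h2
        constructor <;> linarith
    have h1 := hcon _ hb
    rw [DPs2 f w k lo hi Y L m hm _ hb P P0 hPm v v0 vne n] at h1
    have h2 := (mul_eq_zero.1 h1).resolve_left (by norm_num)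
    have hdb : ∀ y, deriv (fun y => χ ((f Y - y) / δ ^ 2)) y =
        -(δ ^ 2)⁻¹ * deriv χ ((f Y - y) / δ ^ 2) := by
      intro y
      have h3 : HasDerivAt (fun y : ℝ => (f Y - y) / δ ^ 2) (-1 / δ ^ 2) y :=
        ((hasDerivAt_id y).const_sub (f Y)).div_const (δ ^ 2)
      have h4 : HasDerivAt χ (deriv χ ((f Y - y) / δ ^ 2)) ((f Y - y) / δ ^ 2) :=
        (hχs.differentiable (by simp)).differentiableAt.hasDerivAt
      have h5 := HasDerivAt.comp (h := fun y : ℝ => (f Y - y) / δ ^ 2) y h4 h3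
      have h6 : deriv (fun y => χ ((f Y - y) / δ ^ 2)) y = _ := h5.deriv
      rw [h6]
      ring
    simp only [hdb] at h2
    -- vanishing far away
    have hfar : ∀ σ : ℝ, 1 / 2 ≤ |σ| → χ ((f Y - f (Y + σ • v)) / δ ^ 2) = 0 ∧
        deriv χ ((f Y - f (Y + σ • v)) / δ ^ 2) = 0 := by
      intro σ hσ
      have h3 : (f Y - f (Y + σ • v)) / δ ^ 2 ∉ Set.Icc (1 : ℝ) 2 := by
        intro hmem
        have h4 := hmem.2
        rw [div_le_iff₀ hδsq] at h4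
        have h5 := he σ hσ
        linarith
      exact ⟨hχ0 _ h3, co_deriv0 hχ0 _ h3⟩
    rw [← MeasureTheory.integral_add_left_eq_self _ (1 : ℝ)] at h2
    simp only [hpt] at h2
    have hsupp : Function.support (fun σ : ℝ => Real.sign (1 + σ) *
        (-(δ ^ 2)⁻¹ * deriv χ ((f Y - f (Y + σ • v)) / δ ^ 2) *
          ((1 + σ) * fderiv ℝ f (Y + σ • v) n * Kq f w k (Y + σ • v) v) +
          χ ((f Y - f (Y + σ • v)) / δ ^ 2) * Eg f w k P v n (1 + σ))) ⊆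
        Set.Ioc (-(1 / 2 : ℝ)) (1 / 2) := by
      intro σ hσ
      by_contra hn2
      apply hσ
      have h3 : 1 / 2 ≤ |σ| := by
        by_contra h4
        push Not at h4
        obtain ⟨h5, h6⟩ := abs_lt.1 h4
        exact hn2 ⟨h5, h6.le⟩
      obtain ⟨h4, h5⟩ := hfar σ h3
      simp only [h4, h5]
      ring
    rw [← intervalIntegral.integral_eq_integral_of_support_subset hsupp] at h2
    have hsign : ∫ σ in (-(1 / 2 : ℝ))..(1 / 2), Real.sign (1 + σ) *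
        (-(δ ^ 2)⁻¹ * deriv χ ((f Y - f (Y + σ • v)) / δ ^ 2) *
          ((1 + σ) * fderiv ℝ f (Y + σ • v) n * Kq f w k (Y + σ • v) v) +
          χ ((f Y - f (Y + σ • v)) / δ ^ 2) * Eg f w k P v n (1 + σ)) =
        ∫ σ in (-(1 / 2 : ℝ))..(1 / 2),
        (-(δ ^ 2)⁻¹ * (deriv χ ((f Y - f (Y + σ • v)) / δ ^ 2) *
          ((1 + σ) * fderiv ℝ f (Y + σ • v) n * Kq f w k (Y + σ • v) v)) +
          χ ((f Y - f (Y + σ • v)) / δ ^ 2) * Eg f w k P v n (1 + σ)) := by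
      refine intervalIntegral.integral_congr fun σ hσ => ?_
      rw [Set.uIcc_of_le (by norm_num)] at hσ
      show Real.sign (1 + σ) * _ = _
      rw [Real.sign_of_pos (by linarith [hσ.1])]
      ring
    rw [hsign] at h2
    have hgc : Continuous fun σ : ℝ => (f Y - f (Y + σ • v)) / δ ^ 2 :=
      (continuous_const.sub hgs.continuous).div_const _
    have hA2 : Continuous fun σ : ℝ => (1 + σ) * fderiv ℝ f (Y + σ • v) n *
        Kq f w k (Y + σ • v) v := by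
      simpa only [hpt] using hA1
    have hi1 : Continuous fun σ : ℝ => deriv χ ((f Y - f (Y + σ • v)) / δ ^ 2) *
          ((1 + σ) * fderiv ℝ f (Y + σ • v) n * Kq f w k (Y + σ • v) v) :=
      (hχd.comp hgc).mul hA2
    have hi2 : Continuous fun σ : ℝ => χ ((f Y - f (Y + σ • v)) / δ ^ 2) *
        Eg f w k P v n (1 + σ) := (hχc.comp hgc).mul hE1
    have hi3 : IntervalIntegrable (fun σ : ℝ => -(δ ^ 2)⁻¹ *
        (deriv χ ((f Y - f (Y + σ • v)) / δ ^ 2) *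
          ((1 + σ) * fderiv ℝ f (Y + σ • v) n * Kq f w k (Y + σ • v) v))) MeasureTheory.volume
        (-(1 / 2 : ℝ)) (1 / 2) := (continuous_const.mul hi1).intervalIntegrable _ _
    rw [intervalIntegral.integral_add hi3 (hi2.intervalIntegrable _ _),
      intervalIntegral.integral_const_mul] at h2
    simp only [hpt]
    generalize (∫ σ in (-(1 / 2 : ℝ))..(1 / 2), deriv χ ((f Y - f (Y + σ • v)) / δ ^ 2) *
      ((1 + σ) * fderiv ℝ f (Y + σ • v) n * Kq f w k (Y + σ • v) v)) = J1 at h2 ⊢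
    generalize (∫ σ in (-(1 / 2 : ℝ))..(1 / 2), χ ((f Y - f (Y + σ • v)) / δ ^ 2) *
      Eg f w k P v n (1 + σ)) = J0 at h2 ⊢
    have h3 : J1 = δ ^ 2 * J0 := by
      have h4 : J0 = (δ ^ 2)⁻¹ * J1 := by linarith
      rw [h4, ← mul_assoc, mul_inv_cancel₀ hδsq.ne', one_mul]
    rw [h3]
    ring
  have hsq : Filter.Tendsto (fun δ : ℝ => δ ^ 2) (𝓝[>] 0) (𝓝 0) := by
    have h2 : Continuous fun δ : ℝ => δ ^ 2 := by fun_prop
    have h3 := (h2.tendsto 0).mono_left (nhdsWithin_le_nhds (s := Set.Ioi (0 : ℝ)))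
    rw [zero_pow two_ne_zero] at h3
    exact h3
  have lim3 := hsq.mul lim2
  rw [zero_mul] at lim3
  have huniq := tendsto_nhds_unique (lim1.congr' key) lim3
  simp only [add_zero, one_mul, one_smul, hY] at huniq
  rcases mul_eq_zero.1 huniq with h1 | h1
  · rcases mul_eq_zero.1 h1 with h2 | h2
    · rw [fderiv_eq_gr] at h2
      exact hn h2
    · exact hK h2
  · exact hχ1 κ hκ0 h1

end Pool.Agent.Work.MP_659252_gt.SP
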