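import Pool.Agent.Work.MP_659252_gt.SP.ADefs

/-!
# A function with vanishing third derivative.  Size: S.

PROOF.  `iteratedDeriv 3 G = 0` everywhere: `iteratedDeriv 2 G` is constant; as `G = 0` on the open interval `(1/2, 1)`, `G`, `deriv G` and `iteratedDeriv 2 G` vanish at `3/4`.  So `iteratedDeriv 2 G = 0` everywhere, hence
`deriv G` is constant `= 0`, hence `G` is constant `= 0` (`is_const_of_deriv_eq_zero`, `iteratedDeriv_succ`).
-/

namespace Pool.Agent.Work.MP_659252_gt.SP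

open scoped ContDiff Topology
open Pool.Agent.Work.MP_659252_gt.Z (V Ten val Tan InT)
open Pool.Agent.Work.MP_659252_gt.QR

variable {d : ℕ}

theorem cub (G : ℝ → ℝ) (hG : ContDiff ℝ ∞ G) (h3 : ∀ x, iteratedDeriv 3 G x = 0)
    (h0 : ∀ x ∈ Set.Ioo (1 / 2 : ℝ) 1, G x = 0) : G 0 = 0 := by
  have hmem : Set.Ioo (1 / 2 : ℝ) 1 ∈ 𝓝 (3 / 4 : ℝ) := Ioo_mem_nhds (by norm_num) (by norm_num)
  have hev : G =ᶠ[𝓝 (3 / 4 : ℝ)] fun _ => (0 : ℝ) := by
    filter_upwards [hmem] with x hx using h0 x hx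
  have hz : ∀ n, iteratedDeriv n G (3 / 4) = 0 := by
    intro n
    rw [hev.iteratedDeriv_eq n]
    simp
  have hstep : ∀ n, (∀ x, iteratedDeriv (n + 1) G x = 0) → ∀ x, iteratedDeriv n G x = 0 := by
    intro n hn x
    have hd : Differentiable ℝ (iteratedDeriv n G) :=
      hG.differentiable_iteratedDeriv n (by exact_mod_cast WithTop.coe_lt_top _)
    have hc := is_const_of_deriv_eq_zero hd (fun y => by
      have := hn y
      rwa [iteratedDeriv_succ] at this) x (3 / 4)
    rw [hc, hz]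
  have h := hstep 0 (hstep 1 (hstep 2 h3)) 0
  simpa using h

end Pool.Agent.Work.MP_659252_gt.SP
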