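import Pool.Agent.Work.MP_659252_gt.SP.ADefs
import Pool.Agent.Work.MP_659252_gt.SP.A.PsS

/-!
# The derivative of `Ps` in the direction `(0, n)`.  Size: M-L (adaptation of `QR/L/DPs`, read it first).

PROOF.  Copy the proof of `DPs` (QR/L/DPs) with an arbitrary vector `n` instead of `gr f P` (there `n = gr f P` is only a name) and with the support of `b` in `[a, c]`, `f P ≤ m < a` (before: `c < f P`), so that again the
integrand vanishes near `τ = 0` (`f (P + τ (v + η n)) < a` for small `τ`, `η`) and for `|τ| ≥ R`.  `Eg` is defined like `Ef` with `n` in the place of `gr f P`.  `Ps` is differentiable at `(P, v)`: as in `nbh`; you may import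
`SP.A.PsS` (`psS`) for it.
-/

namespace Pool.Agent.Work.MP_659252_gt.SP

open scoped ContDiff Topology
open Pool.Agent.Work.MP_659252_gt.Z (V Ten val Tan InT)
open Pool.Agent.Work.MP_659252_gt.QR

variable {d : ℕ}

private theorem op0 : IsOpen ({0}ᶜ : Set (V d)) := isOpen_compl_singleton

/-- an integral over `ℝ` of a function which vanishes outside of `[-R, R]` -/
private theorem int_cut (g : ℝ → ℝ) (R : ℝ) (hR : 0 < R) (hg : ∀ τ, R ≤ |τ| → g τ = 0) :
    ∫ τ, g τ = ∫ τ in (-R)..R, g τ := by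
  rw [intervalIntegral.integral_of_le (by linarith)]
  symm
  apply MeasureTheory.setIntegral_eq_integral_of_forall_compl_eq_zero
  intro τ hτ
  apply hg
  by_contra hlt
  push Not at hlt
  rw [abs_lt] at hlt
  exact hτ ⟨hlt.1, hlt.2.le⟩

private theorem sign_int (g : ℝ → ℝ) (R : ℝ) (hR : 0 < R) (hg : ∀ τ, R ≤ |τ| → g τ = 0)
    (hc : Continuous g) :
    ∫ τ, Real.sign τ * g τ = (∫ τ in (0 : ℝ)..R, g τ) + ∫ τ in (0 : ℝ)..(-R), g τ := by
  have h1 := int_cut (fun τ => Real.sign τ * g τ) R hR (fun τ hτ => by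
    show Real.sign τ * g τ = 0
    rw [hg τ hτ, mul_zero])
  rw [h1]
  have e1 : Set.EqOn (fun τ => Real.sign τ * g τ) g (Set.Ioc 0 R) := by
    intro τ hτ
    show Real.sign τ * g τ = g τ
    rw [Real.sign_of_pos hτ.1, one_mul]
  have e2 : Set.EqOn (fun τ => Real.sign τ * g τ) (fun τ => -g τ) (Set.Ioo (-R) 0) := by
    intro τ hτ
    show Real.sign τ * g τ = -g τ
    rw [Real.sign_of_neg hτ.2, neg_one_mul]
  have i1 : IntervalIntegrable (fun τ => Real.sign τ * g τ) MeasureTheory.volume 0 R := by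
    refine IntervalIntegrable.congr_ae (hc.intervalIntegrable 0 R) ?_
    rw [Set.uIoc_of_le hR.le]
    exact (MeasureTheory.ae_restrict_iff' measurableSet_Ioc).2
      (Filter.Eventually.of_forall fun τ hτ => (e1 hτ).symm)
  have i2 : IntervalIntegrable (fun τ => Real.sign τ * g τ) MeasureTheory.volume (-R) 0 := by
    refine IntervalIntegrable.congr_ae ((hc.neg).intervalIntegrable (-R) 0) ?_
    rw [Set.uIoc_of_le (by linarith)]
    refine (MeasureTheory.ae_restrict_iff' measurableSet_Ioc).2 ?_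
    have h0 : ∀ᵐ τ : ℝ, τ ≠ 0 := by
      simp [MeasureTheory.ae_iff]
    filter_upwards [h0] with τ h0 hτ
    exact (e2 ⟨hτ.1, lt_of_le_of_ne hτ.2 h0⟩).symm
  rw [← intervalIntegral.integral_add_adjacent_intervals i2 i1]
  have j1 : ∫ τ in (0 : ℝ)..R, Real.sign τ * g τ = ∫ τ in (0 : ℝ)..R, g τ := by
    rw [intervalIntegral.integral_of_le hR.le, intervalIntegral.integral_of_le hR.le]
    exact MeasureTheory.setIntegral_congr_fun measurableSet_Ioc e1
  have j2 : ∫ τ in (-R)..0, Real.sign τ * g τ = ∫ τ in (0 : ℝ)..(-R), g τ := by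
    rw [intervalIntegral.integral_symm (-R) 0, ← intervalIntegral.integral_neg,
      intervalIntegral.integral_of_le (by linarith), intervalIntegral.integral_of_le (by linarith),
      MeasureTheory.integral_Ioc_eq_integral_Ioo, MeasureTheory.integral_Ioc_eq_integral_Ioo]
    exact MeasureTheory.setIntegral_congr_fun measurableSet_Ioo e2
  rw [j1, j2, add_comm]

/-- the neighbourhood -/
private theorem exists_nbh2 (f w : V d → ℝ) (k : Ten d) (lo hi : ℝ) (Y : V d) (L : Loc f w k lo hi Y)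
    (P : V d) (hP0 : 0 < P 0) (v : V d) (hv0 : v 0 = 0) (hv : v ≠ 0) :
    ∃ U : Set (V d × V d), IsOpen U ∧ (P, v) ∈ U ∧ ∃ R > 0, (∀ z ∈ U, ∀ τ : ℝ, z.1 + τ • z.2 ≠ 0) ∧
      ∀ z ∈ U, ∀ τ : ℝ, R ≤ |τ| → f (z.1 + τ • z.2) < lo := by
  have hg : Continuous fun p : (V d × V d) × ℝ => p.2 • p.1.1 + p.1.2 := by fun_prop
  have hat : (0 : ℝ) • P + v = v := by simp
  have h1 : {p : (V d × V d) × ℝ | p.2 • p.1.1 + p.1.2 ≠ 0 ∧ f (p.2 • p.1.1 + p.1.2) < lo} ∈
      𝓝 (((P, v), 0) : (V d × V d) × ℝ) := by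
    have h2 : {x : V d | x ≠ 0 ∧ f x < lo} ∈ 𝓝 v := by
      have hc : ContinuousAt f v := (L.fs.contDiffAt (op0.mem_nhds hv)).continuousAt
      have h3 : ∀ᶠ x in 𝓝 v, f x < lo := hc.eventually (gt_mem_nhds (L.feq v hv hv0))
      have h4 : ∀ᶠ x in 𝓝 v, x ≠ 0 := op0.mem_nhds hv
      filter_upwards [h3, h4] with x a b
      exact ⟨b, a⟩
    have h5 : Filter.Tendsto (fun p : (V d × V d) × ℝ => p.2 • p.1.1 + p.1.2)
        (𝓝 (((P, v), 0) : (V d × V d) × ℝ)) (𝓝 ((0 : ℝ) • P + v)) := hg.continuousAt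
    rw [hat] at h5
    exact h5 h2
  rw [nhds_prod_eq, Filter.mem_prod_iff] at h1
  obtain ⟨A, hA, B, hB, hAB⟩ := h1
  obtain ⟨δ, hδ, hδB⟩ := Metric.mem_nhds_iff.1 hB
  obtain ⟨A', hA'A, hA'o, hA'm⟩ := mem_nhds_iff.1 hA
  set R : ℝ := 2 / δ with hR
  have hR0 : 0 < R := by positivity
  set A2 : Set (V d × V d) := {z | P 0 / 2 < z.1 0 ∧ |z.2 0| < P 0 / (2 * R)} with hA2
  have hA2o : IsOpen A2 := by
    have c1 : Continuous fun z : V d × V d => z.1 0 := by fun_prop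
    have c2 : Continuous fun z : V d × V d => |z.2 0| := by fun_prop
    exact (isOpen_lt continuous_const c1).inter (isOpen_lt c2 continuous_const)
  have hbig : ∀ z ∈ A', ∀ τ : ℝ, R ≤ |τ| → z.1 + τ • z.2 ≠ 0 ∧ f (z.1 + τ • z.2) < lo := by
    intro z hz τ hτ
    have hτ0 : τ ≠ 0 := by
      rintro rfl
      rw [abs_zero] at hτ
      linarith
    have hm : ((z, τ⁻¹) : (V d × V d) × ℝ) ∈ A ×ˢ B := by
      refine ⟨hA'A hz, hδB ?_⟩
      rw [Metric.mem_ball, Real.dist_eq, sub_zero, abs_inv]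
      have h6 : |τ|⁻¹ ≤ R⁻¹ := inv_anti₀ hR0 hτ
      have h7 : R⁻¹ = δ / 2 := by rw [hR, inv_div]
      rw [h7] at h6
      linarith
    obtain ⟨h8, h9⟩ := hAB hm
    have e : z.1 + τ • z.2 = τ • (τ⁻¹ • z.1 + z.2) := by
      rw [smul_add, smul_smul, mul_inv_cancel₀ hτ0, one_smul]
    rw [e]
    refine ⟨smul_ne_zero hτ0 h8, ?_⟩
    rw [L.fh τ _ hτ0]
    exact h9
  refine ⟨A' ∩ A2, hA'o.inter hA2o, ⟨hA'm, ?_, ?_⟩, R, hR0, ?_, ?_⟩
  · show P 0 / 2 < P 0
    linarith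
  · show |v 0| < P 0 / (2 * R)
    rw [hv0, abs_zero]
    positivity
  · intro z hz τ
    rcases le_or_gt R |τ| with hτ | hτ
    · exact (hbig z hz.1 τ hτ).1
    · intro h0
      have h1 := congrFun h0 0
      have h2 : z.1 0 + τ * z.2 0 = 0 := h1
      obtain ⟨h3, h4⟩ := hz.2
      have h5 : |τ * z.2 0| ≤ R * (P 0 / (2 * R)) := by
        rw [abs_mul]
        exact mul_le_mul hτ.le h4.le (abs_nonneg _) hR0.le
      have h6 : R * (P 0 / (2 * R)) = P 0 / 2 := by field_simp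
      rw [h6] at h5
      have h7 := neg_le_of_abs_le h5
      linarith
  · exact fun z hz τ hτ => (hbig z hz.1 τ hτ).2


private theorem par_deriv (I : Set ℝ) (hI : IsOpen I) (h0 : (0 : ℝ) ∈ I) (h : ℝ × ℝ → ℝ)
    (hh : ContDiffOn ℝ ∞ h (I ×ˢ Set.univ)) (a b : ℝ) :
    HasDerivAt (fun η => ∫ t in a..b, h (η, t)) (∫ t in a..b, deriv (fun η => h (η, t)) 0) 0 ∧
      Continuous (fun t => deriv (fun η => h (η, t)) 0) := by
  have hO : IsOpen (I ×ˢ (Set.univ : Set ℝ)) := hI.prod isOpen_univ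
  have hfd : ContDiffOn ℝ ∞ (fderiv ℝ h) (I ×ˢ Set.univ) := hh.fderiv_of_isOpen hO (by simp)
  have hdc : ContinuousOn (fun p : ℝ × ℝ => fderiv ℝ h p (1, 0)) (I ×ˢ Set.univ) :=
    (hfd.clm_apply contDiffOn_const).continuousOn
  have hder : ∀ η ∈ I, ∀ t : ℝ, HasDerivAt (fun η => h (η, t)) (fderiv ℝ h (η, t) (1, 0)) η := by
    intro η hη t
    have h1 : HasFDerivAt h (fderiv ℝ h (η, t)) (η, t) :=
      ((hh.contDiffAt (hO.mem_nhds ⟨hη, trivial⟩)).differentiableAt (by simp)).hasFDerivAt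
    have h2 : HasDerivAt (fun η : ℝ => ((η, t) : ℝ × ℝ)) (1, 0) η :=
      (hasDerivAt_id η).prodMk (hasDerivAt_const η t)
    exact h1.comp_hasDerivAt η h2
  have hde : ∀ t, deriv (fun η => h (η, t)) 0 = fderiv ℝ h (0, t) (1, 0) := fun t => (hder 0 h0 t).deriv
  have hcl : ∀ η ∈ I, Continuous fun t => h (η, t) := by
    intro η hη
    rw [continuous_iff_continuousAt]
    intro t
    have h5 : ContinuousAt h (η, t) := (hh.contDiffAt (hO.mem_nhds ⟨hη, trivial⟩)).continuousAt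
    exact h5.comp (f := fun t : ℝ => ((η, t) : ℝ × ℝ)) (by fun_prop)
  have hcd : Continuous fun t => fderiv ℝ h (0, t) (1, 0) := by
    rw [continuous_iff_continuousAt]
    intro t
    have h5 : ContinuousAt (fun p : ℝ × ℝ => fderiv ℝ h p (1, 0)) (0, t) :=
      hdc.continuousAt (hO.mem_nhds ⟨h0, trivial⟩)
    exact h5.comp (f := fun t : ℝ => ((0, t) : ℝ × ℝ)) (by fun_prop)
  obtain ⟨ε, hε, hK⟩ := Metric.nhds_basis_closedBall.mem_iff.1 (hI.mem_nhds h0)
  have hKc : IsCompact (Metric.closedBall (0 : ℝ) ε ×ˢ Set.uIcc a b) :=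
    (isCompact_closedBall 0 ε).prod isCompact_uIcc
  have hKV : Metric.closedBall (0 : ℝ) ε ×ˢ Set.uIcc a b ⊆ I ×ˢ Set.univ := by
    rintro ⟨x, t⟩ ⟨hx, ht⟩
    exact ⟨hK hx, trivial⟩
  obtain ⟨C, hC⟩ := hKc.exists_bound_of_continuousOn (hdc.mono hKV)
  refine ⟨?_, ?_⟩
  · have key := intervalIntegral.hasDerivAt_integral_of_dominated_loc_of_deriv_le
      (F := fun η t => h (η, t)) (F' := fun η t => fderiv ℝ h (η, t) (1, 0)) (bound := fun _ => C)
      (x₀ := (0 : ℝ)) (a := a) (b := b) (μ := MeasureTheory.volume)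
      (s := Metric.closedBall (0 : ℝ) ε) (Metric.closedBall_mem_nhds 0 hε) ?_ ?_ ?_ ?_ ?_ ?_
    · have h6 : (∫ t in a..b, deriv (fun η => h (η, t)) 0) = ∫ t in a..b, fderiv ℝ h (0, t) (1, 0) := by
        simp only [hde]
      rw [h6]
      exact key.2
    · filter_upwards [hI.mem_nhds h0] with η hη
      exact (hcl η hη).aestronglyMeasurable
    · exact (hcl 0 h0).intervalIntegrable a b
    · exact hcd.aestronglyMeasurable
    · refine Filter.Eventually.of_forall fun t ht x hx => ?_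
      exact hC (x, t) ⟨hx, Set.uIoc_subset_uIcc ht⟩
    · simp
    · exact Filter.Eventually.of_forall fun t ht x hx => hder x (hK hx) t
  · have h6 : (fun t => deriv (fun η => h (η, t)) 0) = fun t => fderiv ℝ h (0, t) (1, 0) := funext hde
    rw [h6]
    exact hcd

theorem DPs2 (f w : V d → ℝ) (k : Ten d) (lo hi : ℝ) (Y : V d) (L : Loc f w k lo hi Y) (m : ℝ) (hm : lo ≤ m)
    (b : ℝ → ℝ) (hb : Bump m hi b) (P : V d) (P0 : 0 < P 0) (hP : f P ≤ m) (v : V d) (hv0 : v 0 = 0) (hv : v ≠ 0)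
    (n : V d) :
    fderiv ℝ (Ps f (Kq f w k) b) (P, v) (0, n) = (1 / 2) * ∫ τ : ℝ, Real.sign τ *
      (deriv b (f (P + τ • v)) * (τ * fderiv ℝ f (P + τ • v) n * Kq f w k (P + τ • v) v) +
        b (f (P + τ • v)) * Eg f w k P v n τ) := by
  obtain ⟨U, hU, hPU, R, hR, hne, hlt⟩ := exists_nbh2 f w k lo hi Y L P P0 v hv0 hv
  obtain ⟨U', hU', hPU', hPs⟩ := psS f w k lo hi Y L m hm b hb P P0 hP v hv0 hv
  obtain ⟨hbs, a, c, ha, hc, hz⟩ := hb
  have hcurve : HasDerivAt (fun η : ℝ => ((P, v + η • n) : V d × V d)) (0, n) 0 := by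
    have h2 : HasDerivAt (fun η : ℝ => v + η • n) n 0 := by
      have h3 := ((hasDerivAt_id (0 : ℝ)).smul_const n).const_add v
      simpa using h3
    exact (hasDerivAt_const (0 : ℝ) P).prodMk h2
  have hcc : Continuous (fun η : ℝ => ((P, v + η • n) : V d × V d)) := by fun_prop
  have hat : ((P, v + (0 : ℝ) • n) : V d × V d) = (P, v) := by simp
  have hd : HasFDerivAt (Ps f (Kq f w k) b) (fderiv ℝ (Ps f (Kq f w k) b) (P, v)) (P, v + (0 : ℝ) • n) := by
    rw [hat]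
    exact ((hPs.contDiffAt (hU'.mem_nhds hPU')).differentiableAt (by simp)).hasFDerivAt
  have h1 : HasDerivAt (fun η : ℝ => Ps f (Kq f w k) b (P, v + η • n))
      (fderiv ℝ (Ps f (Kq f w k) b) (P, v) (0, n)) 0 :=
    HasFDerivAt.comp_hasDerivAt (f := fun η : ℝ => ((P, v + η • n) : V d × V d)) (0 : ℝ) hd hcurve
  -- the interval of parameters
  set I : Set ℝ := (fun η : ℝ => ((P, v + η • n) : V d × V d)) ⁻¹' U with hIdef
  have hI : IsOpen I := hU.preimage hcc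
  have h0 : (0 : ℝ) ∈ I := by
    show ((P, v + (0 : ℝ) • n) : V d × V d) ∈ U
    rw [hat]
    exact hPU
  set H : ℝ × ℝ → ℝ := fun p => b (f (P + p.2 • (v + p.1 • n))) *
    Kq f w k (P + p.2 • (v + p.1 • n)) (v + p.1 • n) with hH
  have hline : ContDiff ℝ ∞ fun p : ℝ × ℝ => P + p.2 • (v + p.1 • n) := by fun_prop
  have hmt : Set.MapsTo (fun p : ℝ × ℝ => P + p.2 • (v + p.1 • n)) (I ×ˢ Set.univ) {0}ᶜ :=
    fun p hp => hne _ hp.1 p.2
  have hKs : ContDiffOn ℝ ∞ (fun p : ℝ × ℝ => Kq f w k (P + p.2 • (v + p.1 • n)) (v + p.1 • n))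
      (I ×ˢ Set.univ) := by
    have h1 := Kq_smooth f w k L.fs L.ws L.ks.smooth
    refine h1.comp (t := {0}ᶜ ×ˢ Set.univ)
      (f := fun p : ℝ × ℝ => ((P + p.2 • (v + p.1 • n), v + p.1 • n) : V d × V d)) ?_ ?_
    · exact (hline.prodMk (by fun_prop)).contDiffOn
    · exact fun p hp => ⟨hmt hp, trivial⟩
  have hfs : ContDiffOn ℝ ∞ (fun p : ℝ × ℝ => f (P + p.2 • (v + p.1 • n))) (I ×ˢ Set.univ) :=
    L.fs.comp hline.contDiffOn hmt
  have hHs : ContDiffOn ℝ ∞ H (I ×ˢ Set.univ) := (hbs.comp_contDiffOn hfs).mul hKs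
  have hO : IsOpen (I ×ˢ (Set.univ : Set ℝ)) := hI.prod isOpen_univ
  have hHc : ∀ η ∈ I, Continuous fun t => H (η, t) := by
    intro η hη
    rw [continuous_iff_continuousAt]
    intro t
    have h5 : ContinuousAt H (η, t) := (hHs.contDiffAt (hO.mem_nhds ⟨hη, trivial⟩)).continuousAt
    exact h5.comp (f := fun t : ℝ => ((η, t) : ℝ × ℝ)) (by fun_prop)
  have hHz : ∀ η ∈ I, ∀ τ : ℝ, R ≤ |τ| → H (η, τ) = 0 := by
    intro η hη τ hτ
    have h4 : f (P + τ • (v + η • n)) < lo := hlt _ hη τ hτ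
    show b (f (P + τ • (v + η • n))) * _ = 0
    rw [hz _ (fun hm => by linarith [hm.1]), zero_mul]
  obtain ⟨hp1, hp3⟩ := par_deriv I hI h0 H hHs 0 R
  obtain ⟨hp2, -⟩ := par_deriv I hI h0 H hHs 0 (-R)
  have h2 : HasDerivAt (fun η : ℝ => Ps f (Kq f w k) b (P, v + η • n))
      ((1 / 2) * ((∫ t in (0 : ℝ)..R, deriv (fun η => H (η, t)) 0) +
        ∫ t in (0 : ℝ)..(-R), deriv (fun η => H (η, t)) 0)) 0 := by
    refine ((hp1.add hp2).const_mul (1 / 2 : ℝ)).congr_of_eventuallyEq ?_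
    filter_upwards [hI.mem_nhds h0] with η hη
    have h3 := sign_int (fun τ => H (η, τ)) R hR (hHz η hη) (hHc η hη)
    show (1 / 2) * ∫ τ : ℝ, Real.sign τ * (b (f (P + τ • (v + η • n))) *
      Kq f w k (P + τ • (v + η • n)) (v + η • n)) = _
    exact congrArg (fun t => (1 / 2) * t) h3
  rw [h1.unique h2]
  have hdz : ∀ τ : ℝ, R ≤ |τ| → deriv (fun η => H (η, τ)) 0 = 0 := by
    intro τ hτ
    have h6 : (fun η => H (η, τ)) =ᶠ[𝓝 0] fun _ => 0 := by
      filter_upwards [hI.mem_nhds h0] with η hη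
      exact hHz η hη τ hτ
    rw [h6.deriv_eq, deriv_const]
  rw [← sign_int (fun τ => deriv (fun η => H (η, τ)) 0) R hR hdz hp3]
  have hpt : ∀ τ : ℝ, deriv (fun η => H (η, τ)) 0 =
      deriv b (f (P + τ • v)) * (τ * fderiv ℝ f (P + τ • v) n * Kq f w k (P + τ • v) v) +
        b (f (P + τ • v)) * Eg f w k P v n τ := by
    intro τ
    have hv2 : v + (0 : ℝ) • n = v := by simp
    have hne0 : P + τ • (v + (0 : ℝ) • n) ≠ 0 := hmt (x := ((0, τ) : ℝ × ℝ)) ⟨h0, trivial⟩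
    have d1 : HasDerivAt (fun η : ℝ => P + τ • (v + η • n)) (τ • n) 0 := by
      have h3 : HasDerivAt (fun η : ℝ => v + η • n) n 0 := by
        have h3 := ((hasDerivAt_id (0 : ℝ)).smul_const n).const_add v
        simpa using h3
      exact (h3.const_smul τ).const_add P
    have d2 : HasFDerivAt f (fderiv ℝ f (P + τ • (v + (0 : ℝ) • n))) (P + τ • (v + (0 : ℝ) • n)) :=
      ((L.fs.contDiffAt (op0.mem_nhds hne0)).differentiableAt (by simp)).hasFDerivAt
    have d3 : HasDerivAt (fun η : ℝ => f (P + τ • (v + η • n)))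
        (fderiv ℝ f (P + τ • (v + (0 : ℝ) • n)) (τ • n)) 0 :=
      HasFDerivAt.comp_hasDerivAt (f := fun η : ℝ => P + τ • (v + η • n)) (0 : ℝ) d2 d1
    have d4 : HasDerivAt b (deriv b (f (P + τ • (v + (0 : ℝ) • n)))) (f (P + τ • (v + (0 : ℝ) • n))) :=
      (hbs.differentiable (by simp)).differentiableAt.hasDerivAt
    have d5 : HasDerivAt (fun η : ℝ => b (f (P + τ • (v + η • n))))
        (deriv b (f (P + τ • (v + (0 : ℝ) • n))) * fderiv ℝ f (P + τ • (v + (0 : ℝ) • n)) (τ • n)) 0 :=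
      HasDerivAt.comp (h := fun η : ℝ => f (P + τ • (v + η • n))) (0 : ℝ) d4 d3
    have d6 : DifferentiableAt ℝ (fun η : ℝ => Kq f w k (P + τ • (v + η • n)) (v + η • n)) 0 := by
      have h7 : ContDiffAt ℝ ∞ (fun p : ℝ × ℝ => Kq f w k (P + p.2 • (v + p.1 • n)) (v + p.1 • n))
          (0, τ) := hKs.contDiffAt (hO.mem_nhds ⟨h0, trivial⟩)
      have h8 : ContDiffAt ℝ ∞ (fun η : ℝ => ((η, τ) : ℝ × ℝ)) 0 := by fun_prop
      exact (ContDiffAt.comp (f := fun η : ℝ => ((η, τ) : ℝ × ℝ)) (0 : ℝ) h7 h8).differentiableAt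
        (by simp)
    have d7 := d5.mul d6.hasDerivAt
    have d8 : HasDerivAt (fun η => H (η, τ)) _ 0 := d7
    rw [d8.deriv, hv2]
    show deriv b (f (P + τ • v)) * fderiv ℝ f (P + τ • v) (τ • n) * Kq f w k (P + τ • v) v +
      b (f (P + τ • v)) * Eg f w k P v n τ = _
    rw [map_smul, smul_eq_mul]
    ring
  simp only [hpt]

end Pool.Agent.Work.MP_659252_gt.SP
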