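import Pool.Agent.Work.MP_659252_gt.SP.ADefs

/-!
# Lines in a common tangent plane which miss a level set.  Size: M.

PROOF.  `v = Y - P` has `v 0 = 0`, `gr f Y ⬝ v = 0` (`gr f Y ⬝ Y = 0` by `gr_rad`).  `0 < P 0` (as `P 0 = Y 0`).  For `w = v + x u`, `x ∈ [1/2, 1]` (so `w ≠ 0`, `w 0 = 0`), every point of the great circle or ellipse
`gc P w s` is nonzero and `f (gc P w s) < f Y`: `gc = α P + β w`, `(α, β) ≠ (0, 0)`.  If `α = 0`: `f = f w < lo < f Y` (`feq`, `fh`, `lo_lt`).  If `α ≠ 0`: `f = f (P + τ w)`, `τ = β/α`, and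
`P + τ w - Y = (τ - 1) v + τ x u =: v'`, `v' 0 = 0`, `gr f Y ⬝ v' = 0`, and `v' ≠ 0` (`Ind v u`: `v' = 0` gives `τ = 1` and `τ x = 0`, impossible as `x ≠ 0`), so `f (Y + 1 • v') < f Y` by `L.uniq`.  By compactness of
`[1/2, 1] × [0, 2π]` and continuity of `(x, s) ↦ f (gc P (v + x u) s)` the maximum `M` of it is `< f Y`; let `m = max lo ((M + f Y)/2)`: `M < m`, `lo ≤ m < f Y`, `f P ≤ M ≤ m` (`s = 0`).
For fixed `x ∈ (1/2, 1)`: `f (gc P w s) ≤ M < m` for all `s`; by compactness of `[0, 2π]` (tube lemma) `f (gc z.1 z.2 s) < m` for all `s` and all `z` near `(P, w)`; and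
`z.1 + τ z.2 = (1/cos s) gc z.1 z.2 s` with `τ = tan s`, `s = arctan τ`: `f (z.1 + τ z.2) = f (gc z.1 z.2 s) < m` (`fh`).
-/

namespace Pool.Agent.Work.MP_659252_gt.SP

open scoped ContDiff Topology
open Pool.Agent.Work.MP_659252_gt.Z (V Ten val Tan InT)
open Pool.Agent.Work.MP_659252_gt.QR

variable {d : ℕ}

private theorem ms_cont {f : V d → ℝ} (fs : ContDiffOn ℝ ∞ f {0}ᶜ) {x : V d} (hx : x ≠ 0) :
    ContinuousAt f x :=
  fs.continuousOn.continuousAt (isOpen_compl_singleton.mem_nhds hx)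

private theorem ms_line (f : V d → ℝ) (fh : ∀ (c : ℝ) (x : V d), c ≠ 0 → f (c • x) = f x)
    (X W : V d) {s : ℝ} (hs : Real.cos s ≠ 0) : f (gc X W s) = f (X + Real.tan s • W) := by
  have h1 : gc X W s = Real.cos s • (X + Real.tan s • W) := by
    unfold gc
    rw [smul_add, smul_smul, Real.tan_eq_sin_div_cos, mul_div_cancel₀ _ hs]
  rw [h1, fh _ _ hs]

theorem miss (f w : V d → ℝ) (k : Ten d) (lo hi : ℝ) (Y : V d) (L : Loc f w k lo hi Y) (P : V d) (hPY : P 0 = Y 0)
    (hgr : gr f Y ⬝ᵥ P = 0) (u : V d) (hu0 : u 0 = 0) (hun : gr f Y ⬝ᵥ u = 0) (hind : Ind (Y - P) u) :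
    ∃ m : ℝ, lo ≤ m ∧ m < f Y ∧ f P ≤ m ∧ ∀ x ∈ Set.Ioo (1 / 2 : ℝ) 1,
      ∀ᶠ z in 𝓝 ((P, (Y - P) + x • u) : V d × V d), ∀ τ : ℝ, f (z.1 + τ • z.2) ≤ m := by
  obtain ⟨v, hv⟩ : ∃ v : V d, v = Y - P := ⟨_, rfl⟩
  rw [← hv] at hind ⊢
  have hY0 : Y ≠ 0 := by
    intro h
    have := L.P0
    rw [h] at this
    simp at this
  have hP0 : 0 < P 0 := by rw [hPY]; exact L.P0
  have hv0 : v 0 = 0 := by
    rw [hv, Pi.sub_apply, hPY, sub_self]
  have hgv : gr f Y ⬝ᵥ v = 0 := by
    rw [hv, dotProduct_sub, hgr, gr_rad f L.fs L.fh Y hY0, sub_zero]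
  have key : ∀ x : ℝ, x ≠ 0 → ∀ s : ℝ, gc P (v + x • u) s ≠ 0 ∧ f (gc P (v + x • u) s) < f Y := by
    intro x hx s
    have hw0 : (v + x • u) 0 = 0 := by
      simp [hv0, hu0]
    by_cases hs : Real.cos s = 0
    · have hsin : Real.sin s ≠ 0 := by
        intro h
        have := Real.sin_sq_add_cos_sq s
        rw [hs, h] at this
        norm_num at this
      have hw : v + x • u ≠ 0 := by
        intro h
        have := (hind 1 x (by rw [one_smul]; exact h)).1
        norm_num at this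
      have hg : gc P (v + x • u) s = Real.sin s • (v + x • u) := by
        unfold gc
        rw [hs, zero_smul, zero_add]
      rw [hg]
      exact ⟨smul_ne_zero hsin hw, by
        rw [L.fh _ _ hsin]
        exact (L.feq _ hw hw0).trans L.lo_lt⟩
    · constructor
      · intro h
        have h1 := congrFun h 0
        simp only [gc, Pi.add_apply, Pi.smul_apply, smul_eq_mul, Pi.zero_apply, hv0, hu0, mul_zero,
          add_zero] at h1
        rcases mul_eq_zero.1 h1 with h2 | h2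
        · exact hs h2
        · exact hP0.ne' h2
      · rw [ms_line f L.fh P (v + x • u) hs]
        obtain ⟨τ, hτ⟩ : ∃ τ : ℝ, τ = Real.tan s := ⟨_, rfl⟩
        rw [← hτ]
        have h1 : P + τ • (v + x • u) = Y + (1 : ℝ) • ((τ - 1) • v + (τ * x) • u) := by
          rw [hv]
          module
        rw [h1]
        apply L.uniq
        · rw [dotProduct_add, dotProduct_smul, dotProduct_smul, hgv, hun, smul_zero, smul_zero,
            add_zero]
        · simp [hv0, hu0]
        · intro h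
          obtain ⟨h2, h3⟩ := hind _ _ h
          have h4 : τ = 1 := by linarith
          rw [h4, one_mul] at h3
          exact hx h3
        · norm_num
  have hK : IsCompact (Set.Icc (1 / 2 : ℝ) 1 ×ˢ Set.Icc (-Real.pi) Real.pi) :=
    isCompact_Icc.prod isCompact_Icc
  have hpi := Real.pi_pos
  have hKne : (Set.Icc (1 / 2 : ℝ) 1 ×ˢ Set.Icc (-Real.pi) Real.pi).Nonempty :=
    ⟨(1 / 2, 0), ⟨by norm_num, by norm_num⟩, by constructor <;> simp only <;> linarith⟩
  have hgcc : Continuous fun z : ℝ × ℝ => gc P (v + z.1 • u) z.2 := by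
    unfold gc
    fun_prop
  have hcont : ContinuousOn (fun z : ℝ × ℝ => f (gc P (v + z.1 • u) z.2))
      (Set.Icc (1 / 2 : ℝ) 1 ×ˢ Set.Icc (-Real.pi) Real.pi) := by
    intro z hz
    have hz1 : z.1 ≠ 0 := by
      have := hz.1.1
      intro h
      rw [h] at this
      norm_num at this
    exact (ContinuousAt.comp (f := fun z : ℝ × ℝ => gc P (v + z.1 • u) z.2)
      (ms_cont L.fs (key z.1 hz1 z.2).1) hgcc.continuousAt).continuousWithinAt
  obtain ⟨z0, hz0, hmax⟩ := hK.exists_isMaxOn hKne hcont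
  have hz01 : z0.1 ≠ 0 := by
    have := hz0.1.1
    intro h
    rw [h] at this
    norm_num at this
  obtain ⟨M, hM⟩ : ∃ M : ℝ, M = f (gc P (v + z0.1 • u) z0.2) := ⟨_, rfl⟩
  have hMY : M < f Y := by rw [hM]; exact (key z0.1 hz01 z0.2).2
  have hle : ∀ x ∈ Set.Icc (1 / 2 : ℝ) 1, ∀ s ∈ Set.Icc (-Real.pi) Real.pi,
      f (gc P (v + x • u) s) ≤ M := by
    intro x hx s hs
    rw [hM]
    exact hmax (a := (x, s)) ⟨hx, hs⟩
  have hMm : M < max lo ((M + f Y) / 2) := lt_of_lt_of_le (by linarith) (le_max_right _ _)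
  have hlo := L.lo_lt
  refine ⟨max lo ((M + f Y) / 2), le_max_left _ _, max_lt hlo (by linarith), ?_, ?_⟩
  · have h1 := hle (1 / 2) ⟨by norm_num, by norm_num⟩ 0 ⟨by linarith, by linarith⟩
    have h2 : gc P (v + (1 / 2 : ℝ) • u) 0 = P := by
      unfold gc
      simp
    rw [h2] at h1
    linarith
  · intro x hx
    have hx0 : x ≠ 0 := by
      have := hx.1
      intro h
      rw [h] at this
      norm_num at this
    have hgc3 : Continuous fun p : (V d × V d) × ℝ => gc p.1.1 p.1.2 p.2 := by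
      unfold gc
      fun_prop
    have htube : ∀ᶠ z in 𝓝 ((P, v + x • u) : V d × V d), ∀ s ∈ Set.Icc (-Real.pi) Real.pi,
        f (gc z.1 z.2 s) < max lo ((M + f Y) / 2) := by
      apply isCompact_Icc.eventually_forall_of_forall_eventually
      intro s hs
      have h1 : ContinuousAt (fun p : (V d × V d) × ℝ => f (gc p.1.1 p.1.2 p.2))
          ((P, v + x • u), s) :=
        ContinuousAt.comp (f := fun p : (V d × V d) × ℝ => gc p.1.1 p.1.2 p.2)
          (ms_cont L.fs (key x hx0 s).1) hgc3.continuousAt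
      exact h1.eventually (gt_mem_nhds (lt_of_le_of_lt (hle x ⟨hx.1.le, hx.2.le⟩ s hs) hMm))
    filter_upwards [htube] with z hz τ
    have h1 := Real.arctan_lt_pi_div_two τ
    have h2 := Real.neg_pi_div_two_lt_arctan τ
    have h3 := hz (Real.arctan τ) ⟨by linarith, by linarith⟩
    rw [ms_line f L.fh z.1 z.2 (Real.cos_arctan_pos τ).ne', Real.tan_arctan] at h3
    exact h3.le

end Pool.Agent.Work.MP_659252_gt.SP
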