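import Pool.Agent.Work.MP_659252_gt.SP.A.Star2
import Pool.Agent.Work.MP_659252_gt.SP.A.Cub
import Pool.Agent.Work.MP_659252_gt.SP.A.Miss
import Pool.Agent.Work.MP_659252_gt.SP.A.Conc

/-!
# No common tangent planes with different points of contact.  Size: M.

PROOF.  Suppose `P ≠ Y`; `v = Y - P ≠ 0`, `v 0 = 0`.  `c ≠ 0` (`H.L₁.reg`).  `gr f₂ P ⬝ P = 0`, `gr f₁ Y ⬝ Y = 0` (`gr_rad`), so `gr f₁ Y ⬝ P = c (gr f₂ P ⬝ P) = 0` and `gr f₂ P ⬝ v = 0`.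
The space of the `u` with `u 0 = 0`, `gr f₂ P ⬝ u = 0` has dimension `≥ d + 1 - 2 ≥ 2` (kernel of a linear map to `ℝ²`; `d ≥ 3`), so there is such a `u` with `Ind v u`.
`miss` (for `f₁`, `Y`; `gr f₁ Y ⬝ u = 0`) gives `m`; `conc` with `n = gr f₂ P` (`gr f₁ Y ⬝ n = c (n ⬝ n) ≠ 0`) gives `b₁` with `fderiv (Ps f₁ .. b₁) (P, v) (0, n) ≠ 0`.  Let
`G x = Kq f₂ w₂ k₂ P (v + x u) * fderiv (Ps f₁ (Kq f₁ w₁ k₁) b₁) (P, v + x u) (0, n)`.  `v + x u ≠ 0` for all `x` (`Ind`), so `G` is smooth (`psS` at `(P, v + x u)`: `fderiv` of a smooth function on an open set;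
`Kq_smooth`).  `iteratedDeriv 3 G x = iteratedDeriv 3 (fun y => G (x + y)) 0 = 0` by `star2` with base vector `v + x u` (`iteratedDeriv_comp_const_add`; `(v + x u) + y u = v + (x + y) u`).  For `x ∈ (1/2, 1)`: by `miss`
`Ps f₁ .. b₁` vanishes near `(P, v + x u)` (`b₁ = 0` on `(-∞, m]`), so its derivative is `0` and `G x = 0`.  `cub`: `G 0 = 0`, but both factors at `x = 0` are nonzero.
-/

namespace Pool.Agent.Work.MP_659252_gt.SP

open scoped ContDiff Topology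
open Pool.Agent.Work.MP_659252_gt.Z (V Ten val Tan InT)
open Pool.Agent.Work.MP_659252_gt.QR

variable {d : ℕ}

/-- a vector of the plane `u 0 = 0`, `n ⬝ u = 0`, independent of `v` -/
private theorem nocom_u (hd : 3 ≤ d) (n v : V d) (hv : v ≠ 0) :
    ∃ u : V d, u 0 = 0 ∧ n ⬝ᵥ u = 0 ∧ Ind v u := by
  let φ : V d →ₗ[ℝ] ℝ × ℝ :=
    { toFun := fun u => (u 0, n ⬝ᵥ u)
      map_add' := fun a b => by simp [dotProduct_add]
      map_smul' := fun a b => by simp [dotProduct_smul] }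
  have h1 := LinearMap.finrank_range_add_finrank_ker φ
  have h2 : Module.finrank ℝ (LinearMap.range φ) ≤ 2 := by
    have := Submodule.finrank_le (LinearMap.range φ)
    simpa using this
  have h3 : Module.finrank ℝ (V d) = d + 1 := by
    have : Module.finrank ℝ (Fin (d + 1) → ℝ) = d + 1 := by simp
    exact this
  have h4 : 2 ≤ Module.finrank ℝ (LinearMap.ker φ) := by omega
  have h5 : ¬ (LinearMap.ker φ ≤ Submodule.span ℝ {v}) := by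
    intro h
    have h6 := Submodule.finrank_mono h
    rw [finrank_span_singleton hv] at h6
    omega
  obtain ⟨u, hu, hus⟩ := SetLike.not_le_iff_exists.1 h5
  have hu' : φ u = 0 := hu
  have hu1 : u 0 = 0 := congrArg Prod.fst hu'
  have hu2 : n ⬝ᵥ u = 0 := congrArg Prod.snd hu'
  refine ⟨u, hu1, hu2, fun s t hst => ?_⟩
  have ht : t = 0 := by
    by_contra ht
    apply hus
    rw [Submodule.mem_span_singleton]
    refine ⟨-(t⁻¹ * s), ?_⟩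
    have h7 : t • u = -(s • v) := eq_neg_of_add_eq_zero_right hst
    have h8 : u = t⁻¹ • (t • u) := by rw [smul_smul, inv_mul_cancel₀ ht, one_smul]
    rw [h8, h7, smul_neg, smul_smul, neg_smul]
  subst ht
  rw [zero_smul, add_zero] at hst
  exact ⟨(smul_eq_zero.1 hst).resolve_right hv, rfl⟩

theorem nocom (hd : 3 ≤ d) (f₁ w₁ : V d → ℝ) (k₁ : Ten d) (lo₁ hi₁ : ℝ) (Y : V d) (f₂ w₂ : V d → ℝ) (k₂ : Ten d)
    (lo₂ hi₂ : ℝ) (P : V d) (H : Two f₁ w₁ k₁ lo₁ hi₁ Y f₂ w₂ k₂ lo₂ hi₂ P) (h0 : P 0 = Y 0) (c : ℝ)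
    (hc : gr f₁ Y = c • gr f₂ P) (hK₁ : Kq f₁ w₁ k₁ Y (Y - P) ≠ 0) (hK₂ : Kq f₂ w₂ k₂ P (Y - P) ≠ 0) : P = Y := by
  by_contra hPY
  have hP0 : 0 < P 0 := H.L₂.P0
  have hPne : P ≠ 0 := by
    intro h
    rw [h] at hP0
    exact lt_irrefl _ hP0
  have hYne : Y ≠ 0 := by
    intro h
    have := H.L₁.P0
    rw [h] at this
    exact lt_irrefl _ this
  have hv : Y - P ≠ 0 := sub_ne_zero.2 (Ne.symm hPY)
  have hv0 : (Y - P) 0 = 0 := by
    rw [Pi.sub_apply, h0, sub_self]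
  have hc0 : c ≠ 0 := by
    rintro rfl
    rw [zero_smul] at hc
    exact H.L₁.reg hc
  have e1 : gr f₂ P ⬝ᵥ P = 0 := gr_rad f₂ H.L₂.fs H.L₂.fh P hPne
  have e2 : gr f₁ Y ⬝ᵥ Y = 0 := gr_rad f₁ H.L₁.fs H.L₁.fh Y hYne
  have e3 : gr f₁ Y ⬝ᵥ P = 0 := by rw [hc, smul_dotProduct, e1, smul_zero]
  have e4 : gr f₂ P ⬝ᵥ Y = 0 := by
    rw [hc, smul_dotProduct, smul_eq_mul] at e2
    exact (mul_eq_zero.1 e2).resolve_left hc0
  have hvn : gr f₂ P ⬝ᵥ (Y - P) = 0 := by rw [dotProduct_sub, e4, e1, sub_zero]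
  obtain ⟨u, hu0, hun, hind⟩ := nocom_u hd (gr f₂ P) (Y - P) hv
  have hun1 : gr f₁ Y ⬝ᵥ u = 0 := by rw [hc, smul_dotProduct, hun, smul_zero]
  obtain ⟨m, hm, hmY, hPm, hmiss⟩ := miss f₁ w₁ k₁ lo₁ hi₁ Y H.L₁ P h0 e3 u hu0 hun1 hind
  have hnn : gr f₁ Y ⬝ᵥ gr f₂ P ≠ 0 := by
    rw [hc, smul_dotProduct, smul_eq_mul]
    refine mul_ne_zero hc0 ?_
    intro h
    exact H.L₂.reg (dotProduct_self_eq_zero.1 h)
  obtain ⟨b, hb, hbne⟩ := conc f₁ w₁ k₁ lo₁ hi₁ Y H.L₁ P h0 e3 hPY m hm hmY hPm (gr f₂ P) hnn hK₁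
  set v : V d := Y - P with hvdef
  have hw : ∀ x : ℝ, v + x • u ≠ 0 := by
    intro x h
    have := hind 1 x (by rw [one_smul]; exact h)
    exact one_ne_zero this.1
  have hw0 : ∀ x : ℝ, (v + x • u) 0 = 0 := by
    intro x
    rw [Pi.add_apply, Pi.smul_apply, hu0, hv0, smul_zero, add_zero]
  have hwn : ∀ x : ℝ, gr f₂ P ⬝ᵥ (v + x • u) = 0 := by
    intro x
    rw [dotProduct_add, dotProduct_smul, hvn, hun, smul_zero, add_zero]
  set G : ℝ → ℝ := fun x => Kq f₂ w₂ k₂ P (v + x • u) *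
      fderiv ℝ (Ps f₁ (Kq f₁ w₁ k₁) b) (P, v + x • u) (0, gr f₂ P) with hG
  have hline : ContDiff ℝ ∞ (fun x : ℝ => ((P, v + x • u) : V d × V d)) := by fun_prop
  have hsmooth : ContDiff ℝ ∞ G := by
    rw [contDiff_iff_contDiffAt]
    intro x
    have k1 : ContDiffAt ℝ ∞ (fun p : V d × V d => Kq f₂ w₂ k₂ p.1 p.2) (P, v + x • u) := by
      refine (Kq_smooth f₂ w₂ k₂ H.L₂.fs H.L₂.ws H.L₂.ks.smooth).contDiffAt ?_
      exact (isOpen_compl_singleton.prod isOpen_univ).mem_nhds ⟨hPne, trivial⟩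
    have k2 : ContDiffAt ℝ ∞ (fun x : ℝ => Kq f₂ w₂ k₂ P (v + x • u)) x :=
      k1.comp (f := fun x : ℝ => ((P, v + x • u) : V d × V d)) x hline.contDiffAt
    obtain ⟨U, hU, hmem, hPs⟩ := psS f₁ w₁ k₁ lo₁ hi₁ Y H.L₁ m hm b hb P hP0 hPm (v + x • u)
      (hw0 x) (hw x)
    have k3 : ContDiffAt ℝ ∞ (fderiv ℝ (Ps f₁ (Kq f₁ w₁ k₁) b)) (P, v + x • u) :=
      (hPs.fderiv_of_isOpen hU (by simp)).contDiffAt (hU.mem_nhds hmem)
    have k4 : ContDiffAt ℝ ∞ (fun x : ℝ => fderiv ℝ (Ps f₁ (Kq f₁ w₁ k₁) b) (P, v + x • u)) x :=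
      k3.comp (f := fun x : ℝ => ((P, v + x • u) : V d × V d)) x hline.contDiffAt
    exact k2.mul (k4.clm_apply contDiffAt_const)
  have h3 : ∀ x, iteratedDeriv 3 G x = 0 := by
    intro x
    have h4 := star2 (by omega) f₁ w₁ k₁ lo₁ hi₁ Y f₂ w₂ k₂ lo₂ hi₂ P H m hm hPm b hb (v + x • u) u
      (hw0 x) (hw x) (hwn x) hu0 hun
    have h5 : (fun y : ℝ => Kq f₂ w₂ k₂ P (v + x • u + y • u) *
        fderiv ℝ (Ps f₁ (Kq f₁ w₁ k₁) b) (P, v + x • u + y • u) (0, gr f₂ P)) =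
        fun y => G (x + y) := by
      funext y
      simp only [hG, add_smul, add_assoc]
    rw [h5, iteratedDeriv_comp_const_add] at h4
    simpa using h4
  have hzero : ∀ x ∈ Set.Ioo (1 / 2 : ℝ) 1, G x = 0 := by
    intro x hx
    obtain ⟨hb1, a, c', ha, hc', hbz⟩ := hb
    have h5 : Ps f₁ (Kq f₁ w₁ k₁) b =ᶠ[𝓝 ((P, v + x • u) : V d × V d)] fun _ => (0 : ℝ) := by
      filter_upwards [hmiss x hx] with z hz
      have h6 : ∀ τ : ℝ, b (f₁ (z.1 + τ • z.2)) = 0 := by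
        intro τ
        apply hbz
        intro hmem
        have := hz τ
        linarith [hmem.1]
      simp only [Ps, h6, zero_mul, mul_zero, MeasureTheory.integral_zero]
    have h6 : fderiv ℝ (Ps f₁ (Kq f₁ w₁ k₁) b) (P, v + x • u) = 0 := by
      rw [h5.fderiv_eq]
      simp
    simp only [hG, h6]
    simp
  have hfin := cub G hsmooth h3 hzero
  have h7 : G 0 = Kq f₂ w₂ k₂ P v * fderiv ℝ (Ps f₁ (Kq f₁ w₁ k₁) b) (P, v) (0, gr f₂ P) := by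
    simp only [hG, zero_smul, add_zero]
  rw [h7] at hfin
  exact mul_ne_zero hK₂ hbne hfin

end Pool.Agent.Work.MP_659252_gt.SP
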